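import Pool.Agent.W769.Kak.Homot

set_option autoImplicit false

open MeasureTheory Set Finset Topology

namespace Pool.Agent.W769.Kak

variable {d : ℕ}

theorem contDiff_pi_map {f : Fin d → (Fin d → ℝ) → ℝ} {n : ℕ∞} (hf : ∀ i, ContDiff ℝ n (f i)) :
    ContDiff ℝ n (fun v i => f i v) := contDiff_pi.2 hf

theorem det_GM_eq {f : Fin d → (Fin d → ℝ) → ℝ} (hf : ∀ i, ContDiff ℝ 1 (f i))
    (v : Fin d → ℝ) : (fderiv ℝ (fun v i => f i v) v).det = (GM f v).det := by
  have h1 : fderiv ℝ (fun v i => f i v) v = ContinuousLinearMap.pi fun i => fderiv ℝ (f i) v := by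
    exact (hasFDerivAt_pi.2 fun i => ((hf i).differentiable (by norm_num) v).hasFDerivAt).fderiv
  rw [h1, ContinuousLinearMap.det, ← LinearMap.det_toMatrix', ← Matrix.det_transpose]
  congr 1

theorem det_zero_ae {f : (Fin d → ℝ) → Fin d → ℝ} (hf : ContDiff ℝ 1 f) {N : Set (Fin d → ℝ)}
    (hN : IsClosed N) (hN0 : volume N = 0) :
    ∀ᵐ v, f v ∈ N → (fderiv ℝ f v).det = 0 := by
  have hdc : Continuous (fun v => (fderiv ℝ f v).det) :=
    ContinuousLinearMap.continuous_det.comp (hf.continuous_fderiv (by norm_num))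
  have hmeas : MeasurableSet {v | f v ∈ N ∧ (fderiv ℝ f v).det ≠ 0} := by
    apply MeasurableSet.inter
    · exact (hN.preimage hf.continuous).measurableSet
    · exact (isOpen_ne_fun hdc continuous_const).measurableSet
  have hS : volume {v | f v ∈ N ∧ (fderiv ℝ f v).det ≠ 0} = 0 := by
    apply measure_null_of_locally_null
    intro x hx
    have hs : HasStrictFDerivAt f (fderiv ℝ f x) x :=
      hf.contDiffAt.hasStrictFDerivAt (by norm_num)
    rw [← ContinuousLinearMap.coe_toContinuousLinearEquivOfDetNeZero _ hx.2] at hs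
    set e := hs.toOpenPartialHomeomorph f with he
    refine ⟨e.source ∩ {v | f v ∈ N ∧ (fderiv ℝ f v).det ≠ 0}, ?_, ?_⟩
    · apply Filter.inter_mem
      · exact mem_nhdsWithin_of_mem_nhds (e.open_source.mem_nhds
          hs.mem_toOpenPartialHomeomorph_source)
      · exact self_mem_nhdsWithin
    · set u := e.source ∩ {v | f v ∈ N ∧ (fderiv ℝ f v).det ≠ 0} with hu
      have hum : MeasurableSet u := e.open_source.measurableSet.inter hmeas
      have hinj : InjOn f u := fun a ha b hb hab => e.injOn ha.1 hb.1 hab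
      have h1 := lintegral_abs_det_fderiv_eq_addHaar_image volume hum
        (f := f) (f' := fun v => fderiv ℝ f v)
        (fun v _ => (hf.differentiable (by norm_num) v).hasFDerivAt.hasFDerivWithinAt) hinj
      have h2 : volume (f '' u) = 0 := by
        apply measure_mono_null _ hN0
        rintro _ ⟨v, hv, rfl⟩
        exact hv.2.1
      rw [h2, lintegral_eq_zero_iff' (by
        exact (ENNReal.measurable_ofReal.comp (hdc.abs.measurable)).aemeasurable)] at h1
      rw [Filter.EventuallyEq, ae_restrict_iff' hum] at h1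
      rw [measure_eq_zero_iff_ae_notMem]
      filter_upwards [h1] with v hv hvu
      have h3 := hv hvu
      simp only [Pi.zero_apply, ENNReal.ofReal_eq_zero] at h3
      exact hvu.2.2 (by simpa using h3)
  rw [measure_eq_zero_iff_ae_notMem] at hS
  filter_upwards [hS] with v hv hvN
  by_contra h
  exact hv ⟨hvN, h⟩

end Pool.Agent.W769.Kak
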