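import Pool.Agent.W769.Kak.Bound
import Pool.Agent.W769.Kak.Area

set_option autoImplicit false

open MeasureTheory Set Finset Topology Filter

namespace Pool.Agent.W769.Kak

variable {d : ℕ}

theorem exists_cutoff (N : Set (Fin d → ℝ)) {δ : ℝ} (hδ : 0 < δ) :
    ∃ g : (Fin d → ℝ) → ℝ, ContDiff ℝ 1 g ∧ (∀ y, |g y| ≤ 1) ∧
      (∀ y ∈ Metric.cthickening (δ / 2) N, g y = 1) ∧ (∀ y, y ∉ Metric.thickening δ N → g y = 0) := by
  obtain ⟨g, h1, h2, h3⟩ := exists_contMDiffMap_zero_one_of_isClosed (n := (1 : ℕ∞))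
    (modelWithCornersSelf ℝ (Fin d → ℝ))
    (s := (Metric.thickening δ N)ᶜ) (t := Metric.cthickening (δ / 2) N)
    Metric.isOpen_thickening.isClosed_compl Metric.isClosed_cthickening (by
      rw [Set.disjoint_compl_left_iff_subset]
      exact Metric.cthickening_subset_thickening' hδ (by linarith) N)
  refine ⟨g, ?_, ?_, ?_, ?_⟩
  · exact contMDiff_iff_contDiff.1 g.contMDiff
  · intro y
    rw [abs_le]
    have := h3 y
    constructor <;> linarith [this.1, this.2]
  · intro y hy; exact h2 hy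
  · intro y hy; exact h1 hy

theorem tendsto_T_one {η : (Fin d → ℝ) → ℝ} (hη : ContDiff ℝ 1 η) (hηc : HasCompactSupport η)
    {f : ℕ → Fin d → (Fin d → ℝ) → ℝ} (hf : ∀ k i, ContDiff ℝ 2 (f k i))
    {F : (Fin d → ℝ) → Fin d → ℝ} (hFc : Continuous F)
    (hlim : ∀ ε > 0, ∀ᶠ k in atTop, ∀ v ∈ tsupport η, dist (fun i => f k i v) (F v) ≤ ε)
    {D : ℕ → ENNReal} (hD : ∑' k, D k ≠ ⊤)
    (hTD : ∀ k, ∀ g : (Fin d → ℝ) → ℝ, ContDiff ℝ 1 g → (∀ y, |g y| ≤ 1) →
      ENNReal.ofReal |T η g (f (k + 1)) - T η g (f k)| ≤ D k)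
    (hnull : volume (F '' tsupport η) = 0) :
    Tendsto (fun k => ∫ v, η v * (GM (f k) v).det) atTop (𝓝 0) := by
  set N := F '' tsupport η with hNdef
  have hNc : IsCompact N := hηc.isCompact.image hFc
  have hf1 : ∀ k i, ContDiff ℝ 1 (f k i) := fun k i => (hf k i).of_le (by norm_num)
  rw [Metric.tendsto_atTop]
  intro ε0 hε0
  obtain ⟨ε, hε, hεε⟩ : ∃ ε > 0, 2 * ε < ε0 := ⟨ε0 / 3, by positivity, by linarith⟩
  -- tail
  have htail := ENNReal.tendsto_sum_nat_add D hD
  obtain ⟨k1, hk1⟩ : ∃ k1, ∑' k, D (k + k1) < ENNReal.ofReal ε :=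
    ((tendsto_order.1 htail).2 _ (by simpa using hε)).exists
  have hosc : ∀ g : (Fin d → ℝ) → ℝ, ContDiff ℝ 1 g → (∀ y, |g y| ≤ 1) → ∀ n,
      |T η g (f (k1 + n)) - T η g (f k1)| ≤ ε := by
    intro g hg hg1 n
    have h1 : ENNReal.ofReal |T η g (f (k1 + n)) - T η g (f k1)| ≤
        ∑ j ∈ Finset.range n, D (j + k1) := by
      induction n with
      | zero => simp
      | succ n ih =>
        rw [Finset.sum_range_succ]
        calc ENNReal.ofReal |T η g (f (k1 + (n + 1))) - T η g (f k1)|
            ≤ ENNReal.ofReal (|T η g (f (k1 + n)) - T η g (f k1)| +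
              |T η g (f (k1 + n + 1)) - T η g (f (k1 + n))|) := by
              apply ENNReal.ofReal_le_ofReal
              have := abs_add_le (T η g (f (k1 + n)) - T η g (f k1))
                (T η g (f (k1 + n + 1)) - T η g (f (k1 + n)))
              rw [show T η g (f (k1 + n)) - T η g (f k1) +
                (T η g (f (k1 + n + 1)) - T η g (f (k1 + n))) =
                T η g (f (k1 + (n + 1))) - T η g (f k1) by ring_nf] at this
              exact this
          _ = ENNReal.ofReal |T η g (f (k1 + n)) - T η g (f k1)| +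
              ENNReal.ofReal |T η g (f (k1 + n + 1)) - T η g (f (k1 + n))| :=
              ENNReal.ofReal_add (abs_nonneg _) (abs_nonneg _)
          _ ≤ ∑ j ∈ Finset.range n, D (j + k1) + D (n + k1) := by
              gcongr
              rw [add_comm n k1]
              exact hTD (k1 + n) g hg hg1
    have h2 : ENNReal.ofReal |T η g (f (k1 + n)) - T η g (f k1)| ≤ ENNReal.ofReal ε :=
      h1.trans ((ENNReal.sum_le_tsum _).trans hk1.le)
    exact (ENNReal.ofReal_le_ofReal_iff hε.le).1 h2
  -- cutoffs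
  choose g hgC hg1 hgN hg0 using fun m : ℕ =>
    exists_cutoff N (δ := 1 / ((m : ℝ) + 1)) (by positivity)
  -- limit of T (g m) (f k1)
  have hcont : Continuous (fun v : Fin d → ℝ => fun i => f k1 i v) :=
    continuous_pi fun i => (hf1 k1 i).continuous
  have hdetc : Continuous (fun v => (GM (f k1) v).det) := (continuous_GM (hf1 k1)).matrix_det
  have hlimT : Tendsto (fun m => T η (g m) (f k1)) atTop (𝓝 0) := by
    have h0 : (0 : ℝ) = ∫ v : Fin d → ℝ, (0 : ℝ) := by simp
    rw [h0]
    unfold T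
    apply tendsto_integral_of_dominated_convergence (fun v => |η v * (GM (f k1) v).det|)
    · intro m
      exact (hη.continuous.mul (((hgC m).continuous.comp hcont).mul hdetc)).aestronglyMeasurable
    · exact ((hη.continuous.mul hdetc).abs).integrable_of_hasCompactSupport
        (hηc.mul_right.abs)
    · intro m
      refine Eventually.of_forall fun v => ?_
      rw [Real.norm_eq_abs, abs_mul, abs_mul, abs_mul]
      have := hg1 m (fun i => f k1 i v)
      have h3 : |g m fun i => f k1 i v| * |(GM (f k1) v).det| ≤ 1 * |(GM (f k1) v).det| := by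
        gcongr
      rw [one_mul] at h3
      gcongr
    · have hae := det_zero_ae (f := fun v i => f k1 i v) (contDiff_pi.2 (hf1 k1))
        hNc.isClosed hnull
      filter_upwards [hae] with v hv
      by_cases hvN : (fun i => f k1 i v) ∈ N
      · have h4 := hv hvN
        rw [det_GM_eq (hf1 k1)] at h4
        simp [h4]
      · have h5 : ∃ δ > 0, (fun i => f k1 i v) ∉ Metric.thickening δ N := by
          have h6 : (fun i => f k1 i v) ∉ closure N := by rwa [hNc.isClosed.closure_eq]
          rw [Metric.closure_eq_iInter_thickening] at h6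
          simp only [mem_iInter, not_forall] at h6
          obtain ⟨δ, hδ, h7⟩ := h6
          exact ⟨δ, hδ, h7⟩
        obtain ⟨δ, hδ, h7⟩ := h5
        have h8 : ∀ᶠ m : ℕ in atTop, 1 / ((m : ℝ) + 1) ≤ δ := by
          have := tendsto_one_div_add_atTop_nhds_zero_nat (𝕜 := ℝ)
          exact ((tendsto_order.1 this).2 δ hδ).mono fun _ h => le_of_lt h
        apply tendsto_const_nhds.congr'
        filter_upwards [h8] with m hm
        rw [hg0 m _ (fun h9 => h7 (Metric.thickening_mono hm N h9))]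
        ring
  obtain ⟨m, hm⟩ : ∃ m, |T η (g m) (f k1)| < ε := by
    have := (Metric.tendsto_atTop.1 hlimT) ε hε
    obtain ⟨m, hm⟩ := this
    refine ⟨m, ?_⟩
    simpa [Real.dist_eq] using hm m le_rfl
  have hev := hlim (1 / ((m : ℝ) + 1) / 2) (by positivity)
  obtain ⟨K, hK⟩ := (hev.and (eventually_ge_atTop k1)).exists_forall_of_atTop
  refine ⟨K, fun k hk => ?_⟩
  obtain ⟨hk2, hk3⟩ := hK k hk
  have hTeq : ∫ v, η v * (GM (f k) v).det = T η (g m) (f k) := by
    unfold T
    congr 1
    funext v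
    by_cases hv : v ∈ tsupport η
    · rw [hgN m, one_mul]
      apply Metric.mem_cthickening_of_dist_le _ (F v) _ _ (mem_image_of_mem F hv)
      exact hk2 v hv
    · rw [image_eq_zero_of_notMem_tsupport hv]; ring
  rw [Real.dist_eq, sub_zero, hTeq]
  obtain ⟨n, rfl⟩ := Nat.exists_eq_add_of_le hk3
  have h9 := hosc (g m) (hgC m) (hg1 m) n
  calc |T η (g m) (f (k1 + n))| = |(T η (g m) (f (k1 + n)) - T η (g m) (f k1)) +
        T η (g m) (f k1)| := by ring_nf
    _ ≤ |T η (g m) (f (k1 + n)) - T η (g m) (f k1)| + |T η (g m) (f k1)| := abs_add_le _ _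
    _ < ε0 := by linarith

end Pool.Agent.W769.Kak
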