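import Pool.Agent.W769.Kak.Sum
import Pool.Agent.W769.Kak.Limit

set_option autoImplicit false

open MeasureTheory Set Finset Topology Filter

namespace Pool.Agent.W769.Kak

variable {d : ℕ}

/-- weights that extract the leading coefficient -/
theorem det_weights (A : Matrix (Fin d) (Fin d) ℝ) (t : Fin (d + 1) → ℝ)
    (ht : Function.Injective t) :
    ∑ i, (A + t i • (1 : Matrix (Fin d) (Fin d) ℝ)).det / ∏ j ∈ univ.erase i, (t i - t j) = 1 := by
  have hdeg : (-A).charpoly.degree < ((univ : Finset (Fin (d + 1))).card : WithBot ℕ) := by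
    rw [Matrix.charpoly_degree_eq_dim, Finset.card_univ, Fintype.card_fin, Fintype.card_fin]
    exact_mod_cast Nat.lt_succ_self d
  have h1 := Lagrange.coeff_eq_sum (s := (univ : Finset (Fin (d + 1)))) (v := t)
    (ht.injOn) hdeg
  have h2 : (-A).charpoly.coeff ((univ : Finset (Fin (d + 1))).card - 1) = 1 := by
    rw [Finset.card_univ, Fintype.card_fin, Nat.add_sub_cancel]
    have := (Matrix.charpoly_monic (-A)).coeff_natDegree
    rwa [Matrix.charpoly_natDegree_eq_dim, Fintype.card_fin] at this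
  rw [h2] at h1
  rw [h1]
  refine Finset.sum_congr rfl fun i _ => ?_
  congr 1
  rw [Matrix.eval_charpoly]
  congr 1
  rw [sub_neg_eq_add, add_comm, Matrix.smul_one_eq_diagonal]
  rfl

/-- the mollified slice maps -/
noncomputable def fm (κ : (Fin d → ℝ) → ℝ) (a : (Fin d → ℝ) → Fin d → ℝ) (ρ t : ℝ) :
    Fin d → (Fin d → ℝ) → ℝ :=
  fun i v => mol κ ρ (fun v => a v i) v + t * v i

theorem contDiff_coord (i : Fin d) (t : ℝ) : ContDiff ℝ 2 (fun v : Fin d → ℝ => t * v i) := by
  fun_prop

theorem IsKernel.contDiff_fm {κ : (Fin d → ℝ) → ℝ} {M : ℝ} (h : IsKernel κ M) {ρ : ℝ}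
    (hρ : 0 < ρ) {a : (Fin d → ℝ) → Fin d → ℝ} (ha : Continuous a) (t : ℝ) (i : Fin d) :
    ContDiff ℝ 2 (fm κ a ρ t i) := by
  unfold fm
  exact (h.contDiff_mol hρ (by fun_prop)).add (contDiff_coord i t)

theorem IsKernel.pd_fm {κ : (Fin d → ℝ) → ℝ} {M : ℝ} (h : IsKernel κ M) {ρ : ℝ}
    (hρ : 0 < ρ) {a : (Fin d → ℝ) → Fin d → ℝ} (ha : Continuous a) (t : ℝ) (i j : Fin d)
    (v : Fin d → ℝ) :
    pd (fm κ a ρ t i) j v = pd (mol κ ρ (fun v => a v i)) j v + if j = i then t else 0 := by
  unfold fm pd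
  have h1 := ((h.contDiff_mol hρ (a := fun v => a v i) (by fun_prop)).differentiable
    (by norm_num) v)
  have h2 : HasFDerivAt (fun v : Fin d → ℝ => t * v i)
      (t • ContinuousLinearMap.proj (R := ℝ) (φ := fun _ : Fin d => ℝ) i) v :=
    (ContinuousLinearMap.proj (R := ℝ) (φ := fun _ : Fin d => ℝ) i).hasFDerivAt.const_mul t
  rw [fderiv_fun_add h1 h2.differentiableAt, h2.fderiv]
  simp [Pi.single_apply, eq_comm]

theorem IsKernel.GM_fm {κ : (Fin d → ℝ) → ℝ} {M : ℝ} (h : IsKernel κ M) {ρ : ℝ}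
    (hρ : 0 < ρ) {a : (Fin d → ℝ) → Fin d → ℝ} (ha : Continuous a) (t : ℝ)
    (v : Fin d → ℝ) :
    GM (fm κ a ρ t) v = GM (fun i => mol κ ρ (fun v => a v i)) v +
      t • (1 : Matrix (Fin d) (Fin d) ℝ) := by
  ext j i
  simp only [GM, Matrix.add_apply, Matrix.smul_apply, Matrix.one_apply, smul_eq_mul]
  rw [h.pd_fm hρ ha]
  simp

/-- uniform smallness of the oscillation -/
theorem osc_small {a : (Fin d → ℝ) → Fin d → ℝ} (ha : Continuous a) (v0 : Fin d → ℝ) (R : ℝ)
    {ε : ℝ} (hε : 0 < ε) :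
    ∃ δ > 0, ∀ ρ, 0 < ρ → ρ ≤ δ → ∀ v ∈ Metric.closedBall v0 R, osc a ρ v ≤ ε := by
  have hc : IsCompact (Metric.closedBall v0 (R + 1)) := isCompact_closedBall _ _
  have huc := hc.uniformContinuousOn_of_continuous ha.continuousOn
  rw [Metric.uniformContinuousOn_iff_le] at huc
  obtain ⟨δ, hδ, h⟩ := huc (ε / 2 ^ d) (by positivity)
  refine ⟨min δ 1, by positivity, fun ρ hρ hρδ v hv => ?_⟩
  have hdn : Continuous (fun y => ‖a (v - y) - a v‖) := by fun_prop
  unfold osc
  have h1 : ∫ y in Metric.closedBall (0 : Fin d → ℝ) ρ, ‖a (v - y) - a v‖ ≤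
      ∫ y in Metric.closedBall (0 : Fin d → ℝ) ρ, ε / 2 ^ d := by
    apply setIntegral_mono_on
    · exact hdn.continuousOn.integrableOn_compact (isCompact_closedBall _ _)
    · exact continuous_const.continuousOn.integrableOn_compact (isCompact_closedBall _ _)
    · exact Metric.isClosed_closedBall.measurableSet
    · intro y hy
      rw [Metric.mem_closedBall, dist_zero_right] at hy
      rw [Metric.mem_closedBall] at hv
      have h2 := h (v - y) (by
        rw [Metric.mem_closedBall]
        calc dist (v - y) v0 ≤ dist (v - y) v + dist v v0 := dist_triangle _ _ _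
          _ ≤ 1 + R := by
            gcongr
            rw [dist_eq_norm]; simp only [sub_sub_cancel_left, norm_neg]
            exact hy.trans (hρδ.trans (min_le_right _ _))
          _ = R + 1 := by ring) v (by
        rw [Metric.mem_closedBall]; linarith) (by
        rw [dist_eq_norm]; simp only [sub_sub_cancel_left, norm_neg]
        exact hy.trans (hρδ.trans (min_le_left _ _)))
      rwa [dist_eq_norm] at h2
  have hvr : volume.real (Metric.closedBall (0 : Fin d → ℝ) ρ) = (2 * ρ) ^ d := by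
    rw [Measure.real, Real.volume_pi_closedBall _ hρ.le, Fintype.card_fin,
      ENNReal.toReal_ofReal (by positivity)]
  rw [setIntegral_const, hvr, smul_eq_mul] at h1
  calc (ρ ^ d)⁻¹ * ∫ y in Metric.closedBall (0 : Fin d → ℝ) ρ, ‖a (v - y) - a v‖
      ≤ (ρ ^ d)⁻¹ * ((2 * ρ) ^ d * (ε / 2 ^ d)) := by gcongr
    _ = ε := by rw [mul_pow]; field_simp

/-- **Positive measure of the slices**, abstract version. -/
theorem slices_of_sum (hd : 0 < d) {a : (Fin d → ℝ) → Fin d → ℝ} (ha : Continuous a)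
    (v0 : Fin d → ℝ) {R : ℝ} (hR : 0 < R)
    (hS : ∑' k, ∫⁻ v in Metric.closedBall v0 (R / 2),
      ENNReal.ofReal ((sc (R / 2) k ^ (2 * d - 1))⁻¹) *
      ∫⁻ y in Metric.closedBall (0 : Fin d → ℝ) (sc (R / 2) k), ‖a (v - y) - a v‖ₑ ^ d ≠ ⊤)
    (t : Fin (d + 1) → ℝ) (ht : Function.Injective t) :
    ∃ i, volume ((fun v => a v + t i • v) '' Metric.closedBall v0 R) ≠ 0 := by
  by_contra hcon
  push Not at hcon
  obtain ⟨κ, M, hκ⟩ := exists_kernel d
  have hM0 : 0 ≤ M := (abs_nonneg _).trans (hκ.bound 0)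
  let η : ContDiffBump v0 := ⟨R / 4, R / 2, by positivity, by linarith⟩
  have hηs : ContDiff ℝ 1 η := η.contDiff
  have hηc : HasCompactSupport η := η.hasCompactSupport
  have hηt : tsupport η = Metric.closedBall v0 (R / 2) := η.tsupport_eq
  obtain ⟨N, hN⟩ : ∃ N : ℝ, ∀ v i, |pd η i v| ≤ N := by
    have h1 : ∀ j, ∃ N : ℝ, ∀ y, |pd η j y| ≤ N := by
      intro j
      have h2 : HasCompactSupport (pd η j) := hηc.fderiv_apply ℝ _
      obtain ⟨M2, hM2⟩ := h2.exists_bound_of_continuous (continuous_pd hηs j)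
      exact ⟨M2, hM2⟩
    choose N hN using h1
    have hN' : ∀ j, 0 ≤ N j := fun j => (abs_nonneg _).trans (hN j 0)
    refine ⟨∑ j, N j, fun v i => (hN i v).trans ?_⟩
    exact Finset.single_le_sum (fun j _ => hN' j) (Finset.mem_univ i)
  have hN0 : 0 ≤ N := (abs_nonneg _).trans (hN 0 ⟨0, hd⟩)
  set ρ0 := R / 2 with hρ0
  have hρ0p : 0 < ρ0 := by positivity
  have key : ∀ s : ℝ, volume ((fun v => a v + s • v) '' Metric.closedBall v0 R) = 0 →
      Tendsto (fun k => ∫ v, η v * (GM (fm κ a (sc ρ0 k) s) v).det) atTop (𝓝 0) := by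
    intro s hs
    set B : ℝ := M * (2 * 2 ^ d + 1) + |s| with hB
    have hB0 : 0 ≤ B := by positivity
    have hBs : |s| ≤ B := by
      have : 0 ≤ M * (2 * 2 ^ d + 1) := by positivity
      linarith
    have h2d : (1 : ℝ) ≤ 2 ^ d := one_le_pow₀ (by norm_num)
    set D : ℕ → ENNReal := fun k => ENNReal.ofReal (d * (d.factorial * N)) *
      (ENNReal.ofReal ((2 * B) ^ d) * ∫⁻ v in tsupport η,
        ENNReal.ofReal ((sc ρ0 k ^ (d - 1))⁻¹ * (osc a (sc ρ0 k) v ^ d + sc ρ0 k ^ d))) with hD
    refine tendsto_T_one (F := fun v => a v + s • v) (D := D) hηs hηc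
      (fun k i => hκ.contDiff_fm (sc_pos hρ0p k) ha s i) (by fun_prop) ?_ ?_ ?_ ?_
    · -- uniform convergence
      intro ε hε
      obtain ⟨δ, hδ, hδ2⟩ := osc_small ha v0 R (ε := ε / (M + 1)) (by positivity)
      have h1 : Tendsto (fun k => sc ρ0 k) atTop (𝓝 0) := by
        unfold sc
        have := (tendsto_pow_atTop_nhds_zero_of_lt_one (r := (1 / 2 : ℝ)) (by norm_num)
          (by norm_num)).const_mul ρ0
        simpa using this
      filter_upwards [(tendsto_order.1 h1).2 δ hδ] with k hk v hv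
      rw [hηt] at hv
      have h2 := hδ2 (sc ρ0 k) (sc_pos hρ0p k) hk.le v
        (Metric.closedBall_subset_closedBall (by linarith) hv)
      rw [dist_pi_le_iff hε.le]
      intro i
      rw [Real.dist_eq]
      have h3 := hκ.mol_sub_le (sc_pos hρ0p k) ha i v
      have h4 : fm κ a (sc ρ0 k) s i v - (a v + s • v) i =
          mol κ (sc ρ0 k) (fun v => a v i) v - a v i := by
        simp only [fm, Pi.add_apply, Pi.smul_apply, smul_eq_mul]; ring
      rw [h4]
      refine h3.trans ?_
      calc M * osc a (sc ρ0 k) v ≤ M * (ε / (M + 1)) := by gcongr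
        _ ≤ (M + 1) * (ε / (M + 1)) := by gcongr; linarith
        _ = ε := by field_simp
    · -- summability
      rw [hD, ENNReal.tsum_mul_left, ENNReal.tsum_mul_left]
      refine ENNReal.mul_ne_top ENNReal.ofReal_ne_top
        (ENNReal.mul_ne_top ENNReal.ofReal_ne_top ?_)
      have hstep : ∀ k, ∫⁻ v in tsupport η,
          ENNReal.ofReal ((sc ρ0 k ^ (d - 1))⁻¹ * (osc a (sc ρ0 k) v ^ d + sc ρ0 k ^ d)) ≤
          ENNReal.ofReal (2 ^ (d * d)) * (∫⁻ v in tsupport η,
            ENNReal.ofReal ((sc ρ0 k ^ (2 * d - 1))⁻¹) *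
            ∫⁻ y in Metric.closedBall (0 : Fin d → ℝ) (sc ρ0 k), ‖a (v - y) - a v‖ₑ ^ d) +
            ENNReal.ofReal (sc ρ0 k) * volume (tsupport η) := by
        intro k
        calc ∫⁻ v in tsupport η,
            ENNReal.ofReal ((sc ρ0 k ^ (d - 1))⁻¹ * (osc a (sc ρ0 k) v ^ d + sc ρ0 k ^ d))
            ≤ ∫⁻ v in tsupport η, (ENNReal.ofReal (2 ^ (d * d)) *
              (ENNReal.ofReal ((sc ρ0 k ^ (2 * d - 1))⁻¹) *
              ∫⁻ y in Metric.closedBall (0 : Fin d → ℝ) (sc ρ0 k), ‖a (v - y) - a v‖ₑ ^ d) +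
              ENNReal.ofReal (sc ρ0 k)) :=
              lintegral_mono fun v => pieceA ha hd (sc_pos hρ0p k) v
          _ = _ := by
              rw [lintegral_add_right _ measurable_const,
                lintegral_const_mul' _ _ ENNReal.ofReal_ne_top, setLIntegral_const]
      refine ne_top_of_le_ne_top ?_ (ENNReal.tsum_le_tsum hstep)
      rw [ENNReal.tsum_add, ENNReal.tsum_mul_left, ENNReal.tsum_mul_right]
      refine ENNReal.add_ne_top.2 ⟨?_, ?_⟩
      · refine ENNReal.mul_ne_top ENNReal.ofReal_ne_top ?_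
        rw [hηt]
        exact hS
      · refine ENNReal.mul_ne_top ?_ hηc.measure_lt_top.ne
        apply Summable.tsum_ofReal_ne_top
        unfold sc
        exact (summable_geometric_of_lt_one (by norm_num) (by norm_num)).mul_left ρ0
    · -- one step
      intro k g hg hg1
      have hρk := sc_pos hρ0p k
      have hρk' := sc_pos hρ0p (k + 1)
      have ho : ∀ v, 0 ≤ osc a (sc ρ0 k) v := fun v => osc_nonneg a hρk v
      have hoh : ∀ v, osc a (sc ρ0 (k + 1)) v ≤ 2 ^ d * osc a (sc ρ0 k) v := by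
        intro v; rw [sc_succ]; exact osc_half_le ha hρk v
      have h1 := T_sub_le (f0 := fm κ a (sc ρ0 k) s) (f1 := fm κ a (sc ρ0 (k + 1)) s)
        hηs hηc hg hg1 (fun i => hκ.contDiff_fm hρk ha s i)
        (fun i => hκ.contDiff_fm hρk' ha s i) hN
        (fun v => B * osc a (sc ρ0 k) v)
        (fun v => B * ((sc ρ0 k)⁻¹ * osc a (sc ρ0 k) v + 1)) ?_ ?_ ?_
      · refine h1.trans ?_
        rw [hD]
        simp only
        gcongr
        rw [← lintegral_const_mul' _ _ ENNReal.ofReal_ne_top]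
        refine lintegral_mono fun v => ?_
        rw [← ENNReal.ofReal_mul (by positivity)]
        apply ENNReal.ofReal_le_ofReal
        exact scale_ineq (ho v) hρk hB0 hd
      · intro v _ j
        have h2 := hκ.mol_sub_le hρk ha j v
        have h3 := hκ.mol_sub_le hρk' ha j v
        have h4 : fm κ a (sc ρ0 (k + 1)) s j v - fm κ a (sc ρ0 k) s j v =
            (mol κ (sc ρ0 (k + 1)) (fun v => a v j) v - a v j) -
            (mol κ (sc ρ0 k) (fun v => a v j) v - a v j) := by
          simp only [fm]; ring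
        rw [h4]
        calc |(mol κ (sc ρ0 (k + 1)) (fun v => a v j) v - a v j) -
            (mol κ (sc ρ0 k) (fun v => a v j) v - a v j)|
            ≤ |mol κ (sc ρ0 (k + 1)) (fun v => a v j) v - a v j| +
              |mol κ (sc ρ0 k) (fun v => a v j) v - a v j| := abs_sub _ _
          _ ≤ M * (2 ^ d * osc a (sc ρ0 k) v) + M * osc a (sc ρ0 k) v := by
              gcongr
              exact h3.trans (by gcongr; exact hoh v)
          _ ≤ B * osc a (sc ρ0 k) v := by
              have : M * (2 ^ d * osc a (sc ρ0 k) v) + M * osc a (sc ρ0 k) v =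
                (M * (2 ^ d + 1)) * osc a (sc ρ0 k) v := by ring
              rw [this]
              gcongr
              · exact ho v
              · rw [hB]
                have h5 : M * (2 ^ d + 1) ≤ M * (2 * 2 ^ d + 1) := by gcongr; linarith
                have h6 := abs_nonneg s
                linarith
      · intro v _ i j
        rw [hκ.pd_fm hρk ha]
        have h2 := hκ.abs_pd_mol_le hρk ha i j v
        have h3 : |(if j = i then s else 0 : ℝ)| ≤ |s| := by split_ifs <;> simp
        have h4 : M ≤ B := by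
          have : M * 1 ≤ M * (2 * 2 ^ d + 1) := by gcongr; linarith
          have h6 := abs_nonneg s
          linarith
        calc |pd (mol κ (sc ρ0 k) (fun v => a v i)) j v + if j = i then s else 0|
            ≤ |pd (mol κ (sc ρ0 k) (fun v => a v i)) j v| + |(if j = i then s else 0 : ℝ)| :=
              abs_add_le _ _
          _ ≤ (sc ρ0 k)⁻¹ * M * osc a (sc ρ0 k) v + |s| := by gcongr
          _ ≤ (sc ρ0 k)⁻¹ * B * osc a (sc ρ0 k) v + B := by
              gcongr
              exact ho v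
          _ = B * ((sc ρ0 k)⁻¹ * osc a (sc ρ0 k) v + 1) := by ring
      · intro v _ i j
        rw [hκ.pd_fm hρk' ha]
        have h2 := hκ.abs_pd_mol_le hρk' ha i j v
        have h3 : |(if j = i then s else 0 : ℝ)| ≤ |s| := by split_ifs <;> simp
        have h4 : 2 * 2 ^ d * M ≤ B := by
          have h6 := abs_nonneg s
          rw [hB]
          nlinarith
        have h5 : (sc ρ0 (k + 1))⁻¹ = 2 * (sc ρ0 k)⁻¹ := by
          rw [sc_succ, inv_div, div_eq_mul_inv]
        calc |pd (mol κ (sc ρ0 (k + 1)) (fun v => a v i)) j v + if j = i then s else 0|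
            ≤ |pd (mol κ (sc ρ0 (k + 1)) (fun v => a v i)) j v| +
              |(if j = i then s else 0 : ℝ)| := abs_add_le _ _
          _ ≤ (sc ρ0 (k + 1))⁻¹ * M * osc a (sc ρ0 (k + 1)) v + |s| := by gcongr
          _ ≤ 2 * (sc ρ0 k)⁻¹ * M * (2 ^ d * osc a (sc ρ0 k) v) + B := by
              rw [h5]
              gcongr
              exact hoh v
          _ = (2 * 2 ^ d * M) * ((sc ρ0 k)⁻¹ * osc a (sc ρ0 k) v) + B := by ring
          _ ≤ B * ((sc ρ0 k)⁻¹ * osc a (sc ρ0 k) v) + B := by
              have := ho v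
              gcongr
          _ = B * ((sc ρ0 k)⁻¹ * osc a (sc ρ0 k) v + 1) := by ring
    · refine measure_mono_null (image_mono ?_) hs
      rw [hηt]
      exact Metric.closedBall_subset_closedBall (by linarith)
  -- conclusion
  have hsum : Tendsto (fun k => ∑ i, (∫ v, η v * (GM (fm κ a (sc ρ0 k) (t i)) v).det) /
      ∏ j ∈ univ.erase i, (t i - t j)) atTop (𝓝 (∑ i : Fin (d + 1), 0 /
      ∏ j ∈ univ.erase i, (t i - t j))) :=
    tendsto_finsetSum _ fun i _ => (key (t i) (hcon i)).div_const _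
  have hconst : ∀ k, ∑ i, (∫ v, η v * (GM (fm κ a (sc ρ0 k) (t i)) v).det) /
      ∏ j ∈ univ.erase i, (t i - t j) = ∫ v, η v := by
    intro k
    have hGc : ∀ i, Continuous (GM (fm κ a (sc ρ0 k) (t i))) := fun i =>
      continuous_GM fun j => (hκ.contDiff_fm (sc_pos hρ0p k) ha (t i) j).of_le (by norm_num)
    have hint : ∀ i, Integrable (fun v => η v * (GM (fm κ a (sc ρ0 k) (t i)) v).det /
        ∏ j ∈ univ.erase i, (t i - t j)) := by
      intro i
      apply Integrable.div_const
      exact (hηs.continuous.mul (hGc i).matrix_det).integrable_of_hasCompactSupport hηc.mul_right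
    simp_rw [← integral_div]
    rw [← integral_finsetSum _ fun i _ => hint i]
    congr 1
    funext v
    have h1 := det_weights (GM (fun i => mol κ (sc ρ0 k) (fun v => a v i)) v) t ht
    simp_rw [hκ.GM_fm (sc_pos hρ0p k) ha, mul_div_assoc]
    rw [← Finset.mul_sum, h1, mul_one]
  simp_rw [hconst] at hsum
  simp only [zero_div, Finset.sum_const_zero] at hsum
  have h0 : ∫ v, η v = 0 := tendsto_nhds_unique tendsto_const_nhds hsum
  have hpos : 0 < ∫ v, η v := η.integral_pos
  linarith

/-- **Positive measure of the slices** (all but at most `d` heights), critical Sobolev class. -/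
theorem slices (hd : 0 < d) {a : (Fin d → ℝ) → Fin d → ℝ} (ha : Continuous a) (v0 : Fin d → ℝ)
    {R : ℝ} (hR : 0 < R)
    (hW : ∫⁻ v in Metric.closedBall v0 R, ∫⁻ w in Metric.closedBall v0 R,
      ‖a v - a w‖ₑ ^ d / ‖v - w‖ₑ ^ (2 * d - 1) ≠ ⊤)
    (t : Fin (d + 1) → ℝ) (ht : Function.Injective t) :
    ∃ i, volume ((fun v => a v + t i • v) '' Metric.closedBall v0 R) ≠ 0 := by
  refine slices_of_sum hd ha v0 hR ?_ t ht
  refine ne_top_of_le_ne_top ?_ (pieceC ha (by omega) (by positivity) d _)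
  refine ne_top_of_le_ne_top ?_ (pieceD (Q := Metric.closedBall v0 R) (2 * d - 1) d
    Metric.isClosed_closedBall.measurableSet Metric.isClosed_closedBall.measurableSet ?_)
  · refine ENNReal.mul_ne_top (by norm_num) ?_
    refine ne_top_of_le_ne_top hW ?_
    apply lintegral_mono_set
    exact Metric.closedBall_subset_closedBall (by linarith)
  · intro v hv w hw
    rw [Metric.mem_closedBall] at hv
    rw [Metric.mem_closedBall]
    calc dist w v0 ≤ dist w v + dist v v0 := dist_triangle _ _ _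
      _ ≤ R / 2 + R / 2 := by
        gcongr
        rw [dist_comm, dist_eq_norm]; exact hw
      _ = R := by ring

/-- **Positive measure of the slices** (all but at most `d` heights), Hölder class. -/
theorem slices_hoelder (hd : 0 < d) {a : (Fin d → ℝ) → Fin d → ℝ} (ha : Continuous a)
    (v0 : Fin d → ℝ) {R : ℝ} (hR : 0 < R) {C α : ℝ} (hα0 : 0 < α) (hα : (d : ℝ) - 1 < α * d)
    (hH : ∀ v ∈ Metric.closedBall v0 R, ∀ w ∈ Metric.closedBall v0 R,
      ‖a v - a w‖ ≤ C * ‖v - w‖ ^ α)
    (t : Fin (d + 1) → ℝ) (ht : Function.Injective t) :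
    ∃ i, volume ((fun v => a v + t i • v) '' Metric.closedBall v0 R) ≠ 0 := by
  refine slices_of_sum hd ha v0 hR ?_ t ht
  have hC0 : 0 ≤ |C| := abs_nonneg C
  set γ : ℝ := α * d - (d - 1) with hγ
  have hγ0 : 0 < γ := by rw [hγ]; linarith
  have hbound : ∀ k, ∫⁻ v in Metric.closedBall v0 (R / 2),
      ENNReal.ofReal ((sc (R / 2) k ^ (2 * d - 1))⁻¹) *
      ∫⁻ y in Metric.closedBall (0 : Fin d → ℝ) (sc (R / 2) k), ‖a (v - y) - a v‖ₑ ^ d ≤
      ENNReal.ofReal ((2 * |C|) ^ d * (R / 2) ^ γ * ((1 / 2 : ℝ) ^ γ) ^ k) *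
        volume (Metric.closedBall v0 (R / 2)) := by
    intro k
    have hρ := sc_pos (show 0 < R / 2 by positivity) k
    have hρR : sc (R / 2) k ≤ R / 2 := by
      have := sc_anti (show 0 < R / 2 by positivity) (Nat.zero_le k)
      simpa [sc] using this
    rw [← setLIntegral_const]
    refine setLIntegral_mono' Metric.isClosed_closedBall.measurableSet fun v hv => ?_
    have h1 : ∫⁻ y in Metric.closedBall (0 : Fin d → ℝ) (sc (R / 2) k), ‖a (v - y) - a v‖ₑ ^ d ≤
        ENNReal.ofReal ((|C| * sc (R / 2) k ^ α) ^ d) *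
          volume (Metric.closedBall (0 : Fin d → ℝ) (sc (R / 2) k)) := by
      rw [← setLIntegral_const]
      refine setLIntegral_mono' Metric.isClosed_closedBall.measurableSet fun y hy => ?_
      rw [ENNReal.ofReal_pow (by positivity), ← ofReal_norm]
      gcongr
      rw [Metric.mem_closedBall] at hv
      rw [Metric.mem_closedBall, dist_zero_right] at hy
      have h2 : v - y ∈ Metric.closedBall v0 R := by
        rw [Metric.mem_closedBall]
        calc dist (v - y) v0 ≤ dist (v - y) v + dist v v0 := dist_triangle _ _ _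
          _ ≤ R / 2 + R / 2 := by
            gcongr
            rw [dist_eq_norm]; simp only [sub_sub_cancel_left, norm_neg]
            exact hy.trans hρR
          _ = R := by ring
      have h3 : v ∈ Metric.closedBall v0 R := by
        rw [Metric.mem_closedBall]; linarith
      have h4 := hH _ h2 _ h3
      rw [sub_sub_cancel_left, norm_neg] at h4
      calc ‖a (v - y) - a v‖ ≤ C * ‖y‖ ^ α := h4
        _ ≤ |C| * sc (R / 2) k ^ α := by
          gcongr
          exact le_abs_self C
    refine (mul_le_mul_right h1 _).trans ?_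
    rw [Real.volume_pi_closedBall _ hρ.le, Fintype.card_fin, ← ENNReal.ofReal_mul (by positivity),
      ← ENNReal.ofReal_mul (by positivity)]
    apply ENNReal.ofReal_le_ofReal
    apply le_of_eq
    have h5 : sc (R / 2) k ^ γ = (R / 2) ^ γ * ((1 / 2 : ℝ) ^ γ) ^ k := by
      unfold sc
      rw [Real.mul_rpow (by positivity) (by positivity), ← Real.rpow_natCast, ← Real.rpow_natCast,
        ← Real.rpow_mul (by norm_num), ← Real.rpow_mul (by norm_num), mul_comm γ]
    rw [mul_assoc ((2 * |C|) ^ d), ← h5]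
    have h6 : sc (R / 2) k ^ γ = (sc (R / 2) k ^ (2 * d - 1))⁻¹ *
        ((sc (R / 2) k ^ α) ^ d * sc (R / 2) k ^ d) := by
      rw [← Real.rpow_natCast, ← Real.rpow_neg hρ.le, ← Real.rpow_natCast (_ ^ α),
        ← Real.rpow_mul hρ.le, ← Real.rpow_natCast (sc (R / 2) k) d, ← Real.rpow_add hρ,
        ← Real.rpow_add hρ]
      congr 1
      rw [Nat.cast_sub (by omega)]
      push_cast
      rw [hγ]; ring
    rw [h6, mul_pow, mul_pow, mul_pow]
    ring
  refine ne_top_of_le_ne_top ?_ (ENNReal.tsum_le_tsum hbound)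
  rw [ENNReal.tsum_mul_right]
  refine ENNReal.mul_ne_top ?_ (isCompact_closedBall _ _).measure_lt_top.ne
  apply Summable.tsum_ofReal_ne_top
  apply Summable.mul_left
  apply summable_geometric_of_lt_one (by positivity)
  exact Real.rpow_lt_one (by norm_num) (by norm_num) hγ0

end Pool.Agent.W769.Kak
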