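import Pool.Agent.W769.Kak.Core

set_option autoImplicit false

open MeasureTheory Set Finset Topology Filter
open scoped MeasureTheory NNReal ENNReal

namespace Pool.Agent.W769.Kak

variable {d : ℕ}

/-- coordinatewise clamp onto the closed ball (a cube) -/
noncomputable def clamp (v0 : Fin d → ℝ) (R : ℝ) (v : Fin d → ℝ) : Fin d → ℝ :=
  fun i => max (v0 i - R) (min (v i) (v0 i + R))

theorem continuous_clamp (v0 : Fin d → ℝ) (R : ℝ) : Continuous (clamp v0 R) := by
  unfold clamp; fun_prop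

theorem clamp_mem (v0 : Fin d → ℝ) {R : ℝ} (hR : 0 ≤ R) (v : Fin d → ℝ) :
    clamp v0 R v ∈ Metric.closedBall v0 R := by
  rw [Metric.mem_closedBall, dist_pi_le_iff hR]
  intro i
  rw [Real.dist_eq, abs_le, clamp]
  constructor
  · have := le_max_left (v0 i - R) (min (v i) (v0 i + R)); linarith
  · have : max (v0 i - R) (min (v i) (v0 i + R)) ≤ v0 i + R :=
      max_le (by linarith) (min_le_right _ _)
    linarith

theorem clamp_eq (v0 : Fin d → ℝ) {R : ℝ} (hR : 0 ≤ R) {v : Fin d → ℝ}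
    (hv : v ∈ Metric.closedBall v0 R) : clamp v0 R v = v := by
  rw [Metric.mem_closedBall, dist_pi_le_iff hR] at hv
  funext i
  have := hv i
  rw [Real.dist_eq, abs_le] at this
  rw [clamp, min_eq_left (by linarith [this.2]), max_eq_right (by linarith [this.1])]

/-- Slices, with `a` only continuous on the cube (Sobolev class). -/
theorem slices_on (hd : 0 < d) {a : (Fin d → ℝ) → Fin d → ℝ} (v0 : Fin d → ℝ)
    {R : ℝ} (hR : 0 < R) (ha : ContinuousOn a (Metric.closedBall v0 R))
    (hW : ∫⁻ v in Metric.closedBall v0 R, ∫⁻ w in Metric.closedBall v0 R,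
      ‖a v - a w‖ₑ ^ d / ‖v - w‖ₑ ^ (2 * d - 1) ≠ ⊤)
    (t : Fin (d + 1) → ℝ) (ht : Function.Injective t) :
    ∃ i, volume ((fun v => a v + t i • v) '' Metric.closedBall v0 R) ≠ 0 := by
  have hac : Continuous (fun v => a (clamp v0 R v)) :=
    ha.comp_continuous (continuous_clamp v0 R) (clamp_mem v0 hR.le)
  have h := slices hd hac v0 hR ?_ t ht
  · obtain ⟨i, hi⟩ := h
    refine ⟨i, ?_⟩
    rwa [Set.image_congr (g := fun v => a v + t i • v)] at hi
    intro v hv
    simp only [clamp_eq v0 hR.le hv]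
  · rw [setLIntegral_congr_fun Metric.isClosed_closedBall.measurableSet (g := fun v =>
      ∫⁻ w in Metric.closedBall v0 R, ‖a v - a w‖ₑ ^ d / ‖v - w‖ₑ ^ (2 * d - 1))]
    · exact hW
    · intro v hv
      simp only
      apply setLIntegral_congr_fun Metric.isClosed_closedBall.measurableSet
      intro w hw
      simp only [clamp_eq v0 hR.le hv, clamp_eq v0 hR.le hw]

/-- Slices, with `a` only Hölder on the cube. -/
theorem slices_hoelder_on (hd : 0 < d) {a : (Fin d → ℝ) → Fin d → ℝ}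
    (v0 : Fin d → ℝ) {R : ℝ} (hR : 0 < R) {C α : ℝ} (hα0 : 0 < α) (hα : (d : ℝ) - 1 < α * d)
    (ha : ContinuousOn a (Metric.closedBall v0 R))
    (hH : ∀ v ∈ Metric.closedBall v0 R, ∀ w ∈ Metric.closedBall v0 R,
      ‖a v - a w‖ ≤ C * ‖v - w‖ ^ α)
    (t : Fin (d + 1) → ℝ) (ht : Function.Injective t) :
    ∃ i, volume ((fun v => a v + t i • v) '' Metric.closedBall v0 R) ≠ 0 := by
  have hac : Continuous (fun v => a (clamp v0 R v)) :=
    ha.comp_continuous (continuous_clamp v0 R) (clamp_mem v0 hR.le)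
  have h := slices_hoelder hd hac v0 hR hα0 hα (C := C) ?_ t ht
  · obtain ⟨i, hi⟩ := h
    refine ⟨i, ?_⟩
    rwa [Set.image_congr (g := fun v => a v + t i • v)] at hi
    intro v hv
    simp only [clamp_eq v0 hR.le hv]
  · intro v hv w hw
    rw [clamp_eq v0 hR.le hv, clamp_eq v0 hR.le hw]
    exact hH v hv w hw

/-- If among any `d+1` distinct heights one is good, then at most `d` heights are bad. -/
theorem encard_bad_le {P : ℝ → Prop}
    (h : ∀ t : Fin (d + 1) → ℝ, Function.Injective t → ∃ i, ¬ P (t i)) :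
    {t : ℝ | P t}.encard ≤ d := by
  by_contra hcon
  rw [not_le] at hcon
  have h1 : ((d + 1 : ℕ) : ℕ∞) ≤ {t : ℝ | P t}.encard := by
    have := Order.add_one_le_of_lt hcon
    exact_mod_cast this
  obtain ⟨s, hs, hsc⟩ := Set.exists_subset_encard_eq h1
  have hfin : s.Finite := Set.finite_of_encard_eq_coe hsc
  have hcard : hfin.toFinset.card = d + 1 := by
    rw [Set.Finite.encard_eq_coe_toFinset_card hfin] at hsc
    exact_mod_cast hsc
  let e := hfin.toFinset.orderEmbOfFin hcard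
  obtain ⟨i, hi⟩ := h (fun i => e i) e.injective
  apply hi
  have : e i ∈ hfin.toFinset := Finset.orderEmbOfFin_mem _ _ _
  exact hs (by simpa using this)

/-- A set in `ℝ^{d+1}` with many fat slices has positive measure. -/
theorem volume_pos_of_slices {Z : Set (Fin (d + 1) → ℝ)} (hZ : MeasurableSet Z) {t1 t2 : ℝ}
    (h12 : t1 < t2) {B : Set ℝ} (hB : B.Countable)
    (hs : ∀ t ∈ Icc t1 t2, t ∉ B → volume {y : Fin d → ℝ | (Fin.cons t y : Fin (d + 1) → ℝ) ∈ Z} ≠ 0) :
    volume Z ≠ 0 := by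
  intro h0
  have hmp := volume_preserving_piFinSuccAbove (fun _ : Fin (d + 1) => ℝ) 0
  set e := MeasurableEquiv.piFinSuccAbove (fun _ : Fin (d + 1) => ℝ) 0 with he
  have h1 : (volume : Measure (ℝ × (Fin d → ℝ))) (e.symm ⁻¹' Z) = 0 := by
    rw [← hmp.measure_preimage_equiv]
    rw [← preimage_comp]
    simpa using h0
  have hZ' : MeasurableSet (e.symm ⁻¹' Z) := e.symm.measurable hZ
  have h2 := (Measure.measure_prod_null hZ').1 h1
  have h3 : ∀ᵐ t : ℝ, t ∉ B := by
    rw [← measure_eq_zero_iff_ae_notMem]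
    exact hB.measure_zero _
  have h4 : ∀ᵐ t : ℝ, t ∉ Icc t1 t2 := by
    filter_upwards [h2, h3] with t ht htB htI
    apply hs t htI htB
    have h5 : {y : Fin d → ℝ | (Fin.cons t y : Fin (d + 1) → ℝ) ∈ Z} =
        Prod.mk t ⁻¹' (e.symm ⁻¹' Z) := by
      ext y
      have : e.symm (t, y) = (Fin.cons t y : Fin (d + 1) → ℝ) := by
        rw [he]
        exact Fin.insertNth_zero' t y
      rw [Set.mem_preimage, Set.mem_preimage, this]
      rfl
    rw [h5]
    exact ht
  rw [← measure_eq_zero_iff_ae_notMem, Real.volume_Icc, ENNReal.ofReal_eq_zero] at h4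
  linarith

/-- the swept set -/
theorem swept_pos {a σ : (Fin d → ℝ) → Fin d → ℝ} {v0 : Fin d → ℝ} {R : ℝ}
    (ha : ContinuousOn a (Metric.closedBall v0 R)) (hσ : ContinuousOn σ (Metric.closedBall v0 R))
    {t1 t2 : ℝ} (h12 : t1 < t2)
    (hbad : {t : ℝ | volume ((fun v => a v + t • σ v) '' Metric.closedBall v0 R) = 0}.Countable)
    {Z : Set (Fin (d + 1) → ℝ)}
    (hZ : ∀ v ∈ Metric.closedBall v0 R, ∀ t ∈ Icc t1 t2,
      (Fin.cons t (a v + t • σ v) : Fin (d + 1) → ℝ) ∈ Z) : volume Z ≠ 0 := by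
  set Φ : ℝ × (Fin d → ℝ) → (Fin (d + 1) → ℝ) :=
    fun p => Fin.cons p.1 (a p.2 + p.1 • σ p.2) with hΦ
  have hc : ContinuousOn Φ (Icc t1 t2 ×ˢ Metric.closedBall v0 R) := by
    rw [continuousOn_pi]
    intro i
    refine Fin.cases ?_ (fun j => ?_) i
    · simp only [hΦ, Fin.cons_zero]
      exact continuous_fst.continuousOn
    · simp only [hΦ, Fin.cons_succ, Pi.add_apply, Pi.smul_apply, smul_eq_mul]
      have h1 : ContinuousOn (fun p : ℝ × (Fin d → ℝ) => a p.2)
          (Icc t1 t2 ×ˢ Metric.closedBall v0 R) :=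
        ha.comp continuous_snd.continuousOn (fun p hp => hp.2)
      have h2 : ContinuousOn (fun p : ℝ × (Fin d → ℝ) => σ p.2)
          (Icc t1 t2 ×ˢ Metric.closedBall v0 R) :=
        hσ.comp continuous_snd.continuousOn (fun p hp => hp.2)
      exact ((continuous_apply j).comp_continuousOn h1).add
        (continuous_fst.continuousOn.mul ((continuous_apply j).comp_continuousOn h2))
  have hK : IsCompact (Φ '' (Icc t1 t2 ×ˢ Metric.closedBall v0 R)) :=
    (isCompact_Icc.prod (isCompact_closedBall _ _)).image_of_continuousOn hc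
  have hsub : Φ '' (Icc t1 t2 ×ˢ Metric.closedBall v0 R) ⊆ Z := by
    rintro _ ⟨p, hp, rfl⟩
    exact hZ p.2 hp.2 p.1 hp.1
  have h := volume_pos_of_slices hK.measurableSet h12 hbad (by
    intro t ht htB h0
    apply htB
    refine measure_mono_null ?_ h0
    rintro _ ⟨v, hv, rfl⟩
    exact ⟨(t, v), ⟨ht, hv⟩, rfl⟩)
  intro h0
  exact h (measure_mono_null hsub h0)

/-- coordinate projection -/
def proj {n k : ℕ} (ι : Fin k → Fin n) (x : EuclideanSpace ℝ (Fin n)) : Fin k → ℝ :=
  fun j => x (ι j)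

theorem lipschitz_proj {n k : ℕ} (ι : Fin k → Fin n) : LipschitzWith 1 (proj ι) := by
  apply LipschitzWith.of_dist_le_mul
  intro x y
  rw [NNReal.coe_one, one_mul, dist_pi_le_iff dist_nonneg]
  intro j
  simp only [proj]
  rw [dist_eq_norm, dist_eq_norm]
  exact PiLp.norm_apply_le (x - y) (ι j)

theorem hausdorff_ne_zero_of_proj {n k : ℕ} (ι : Fin k → Fin n)
    {K : Set (EuclideanSpace ℝ (Fin n))} (h : volume (proj ι '' K) ≠ 0) :
    Measure.hausdorffMeasure (k : ℝ) K ≠ 0 := by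
  intro h0
  apply h
  have h1 := (lipschitz_proj ι).hausdorffMeasure_image_le (d := (k : ℝ)) (by positivity) K
  rw [h0, mul_zero] at h1
  have h2 : (Measure.hausdorffMeasure ((Fintype.card (Fin k) : ℕ) : ℝ) : Measure (Fin k → ℝ)) =
    volume := hausdorffMeasure_pi_real
  rw [Fintype.card_fin] at h2
  rw [← h2]
  exact le_antisymm h1 zero_le

theorem dimH_ge_of_proj {n k : ℕ} (ι : Fin k → Fin n)
    {K : Set (EuclideanSpace ℝ (Fin n))} (h : volume (proj ι '' K) ≠ 0) :
    (k : ℝ≥0∞) ≤ dimH K := by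
  have h1 := hausdorff_ne_zero_of_proj ι h
  have h2 := le_dimH_of_hausdorffMeasure_ne_zero (s := K) (d := (k : ℝ≥0)) (by
    simpa using h1)
  simpa using h2

theorem volume_pos_of_proj {n : ℕ} (ι : Fin n → Fin n)
    {K : Set (EuclideanSpace ℝ (Fin n))} (h : volume (proj ι '' K) ≠ 0) : 0 < volume K := by
  have h1 := hausdorff_ne_zero_of_proj ι h
  have h3 : Measure.IsAddHaarMeasure
      (Measure.hausdorffMeasure (n : ℝ) : Measure (EuclideanSpace ℝ (Fin n))) := by
    simpa using MeasureTheory.isAddHaarMeasure_hausdorffMeasure (E := EuclideanSpace ℝ (Fin n))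
  rw [pos_iff_ne_zero]
  intro h0
  apply h1
  have h4 := Measure.isAddLeftInvariant_eq_smul
    (Measure.hausdorffMeasure (n : ℝ) : Measure (EuclideanSpace ℝ (Fin n))) volume
  rw [h4, Measure.smul_apply, h0, smul_zero]

end Pool.Agent.W769.Kak
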