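import Pool.Agent.W769.Kak.Homot2

set_option autoImplicit false

open MeasureTheory Set Finset

namespace Pool.Agent.W769.Kak

variable {d : ℕ}

/-- The weighted Jacobian functional. -/
noncomputable def T (η g : (Fin d → ℝ) → ℝ) (f : Fin d → (Fin d → ℝ) → ℝ) : ℝ :=
  ∫ v, η v * (g (fun i => f i v) * (GM f v).det)

theorem T_sub_le {η g : (Fin d → ℝ) → ℝ} {f0 f1 : Fin d → (Fin d → ℝ) → ℝ}
    (hη : ContDiff ℝ 1 η) (hηc : HasCompactSupport η) (hg : ContDiff ℝ 1 g)
    (hg1 : ∀ y, |g y| ≤ 1)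
    (hf0 : ∀ i, ContDiff ℝ 2 (f0 i)) (hf1 : ∀ i, ContDiff ℝ 2 (f1 i))
    {N : ℝ} (hN : ∀ v i, |pd η i v| ≤ N) (Φ m : (Fin d → ℝ) → ℝ)
    (hΦ : ∀ v ∈ tsupport η, ∀ j, |f1 j v - f0 j v| ≤ Φ v)
    (hm0 : ∀ v ∈ tsupport η, ∀ i j, |pd (f0 i) j v| ≤ m v)
    (hm1 : ∀ v ∈ tsupport η, ∀ i j, |pd (f1 i) j v| ≤ m v) :
    ENNReal.ofReal |T η g f1 - T η g f0| ≤
      ENNReal.ofReal (d * (d.factorial * N)) *
        ∫⁻ v in tsupport η, ENNReal.ofReal (Φ v * m v ^ (d - 1)) := by
  rcases Nat.eq_zero_or_pos d with hd | hd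
  · subst hd
    have : f1 = f0 := by ext i; exact i.elim0
    subst this
    simp
  have hN0 : 0 ≤ N := (abs_nonneg _).trans (hN 0 ⟨0, hd⟩)
  set φ : Fin d → (Fin d → ℝ) → ℝ := fun i v => f1 i v - f0 i v with hφdef
  have hφ : ∀ i, ContDiff ℝ 2 (φ i) := fun i => (hf1 i).sub (hf0 i)
  have hf01 : ∀ i, ContDiff ℝ 1 (f0 i) := fun i => (hf0 i).of_le (by norm_num)
  have hf11 : ∀ i, ContDiff ℝ 1 (f1 i) := fun i => (hf1 i).of_le (by norm_num)
  have hφ1 : ∀ i, ContDiff ℝ 1 (φ i) := fun i => (hφ i).of_le (by norm_num)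
  have hGM : ∀ v, GM f0 v + (1 : ℝ) • GM φ v = GM f1 v := by
    intro v
    rw [← GM_add_smul hf01 hφ1]
    congr 1
    funext i v
    simp [hφdef]
  have hT1 : T η g f1 = ∫ v, FI η g f0 φ 1 v := by
    unfold T FI
    congr 1
    funext v
    rw [hGM]
    simp [hφdef]
  have hT0 : T η g f0 = ∫ v, FI η g f0 φ 0 v := by
    unfold T FI
    congr 1
    funext v
    simp
  set J : ENNReal := ENNReal.ofReal (d * (d.factorial * N)) *
        ∫⁻ v in tsupport η, ENNReal.ofReal (Φ v * m v ^ (d - 1)) with hJ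
  by_cases hJtop : J = ⊤
  · rw [hJtop]; exact le_top
  have hBI : ∀ s ∈ Icc (0 : ℝ) 1, ∀ j, ∀ v ∈ tsupport η,
      |BI η g f0 φ s j v| ≤ (d.factorial * N) * (Φ v * m v ^ (d - 1)) := by
    intro s hs j v hv
    unfold BI
    have h1 : |φ j v| ≤ Φ v := hΦ v hv j
    have h2 : |((GM f0 v + s • GM φ v).updateCol j (fun i => pd η i v)).det| ≤
        (d.factorial : ℝ) * (N * m v ^ (d - 1)) := by
      apply abs_det_updateCol_le
      · intro i k _
        have h3 : (GM f0 v + s • GM φ v) i k = (1 - s) * pd (f0 k) i v + s * pd (f1 k) i v := by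
          have h4 : GM φ v = GM f1 v - GM f0 v := by
            rw [← hGM v]; simp
          rw [h4]
          simp only [GM, Matrix.add_apply, Matrix.smul_apply, Matrix.sub_apply, smul_eq_mul]
          ring
        rw [h3]
        calc |(1 - s) * pd (f0 k) i v + s * pd (f1 k) i v|
            ≤ |(1 - s) * pd (f0 k) i v| + |s * pd (f1 k) i v| := abs_add_le _ _
          _ = (1 - s) * |pd (f0 k) i v| + s * |pd (f1 k) i v| := by
              rw [abs_mul, abs_mul, abs_of_nonneg (by linarith [hs.2] : (0:ℝ) ≤ 1 - s),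
                abs_of_nonneg hs.1]
          _ ≤ (1 - s) * m v + s * m v := by
              gcongr
              · linarith [hs.2]
              · exact hm0 v hv k i
              · exact hs.1
              · exact hm1 v hv k i
          _ = m v := by ring
      · intro i; exact hN v i
    have h0 : 0 ≤ Φ v := (abs_nonneg _).trans h1
    rw [abs_mul, abs_mul]
    calc |φ j v| * (|g (fun i => f0 i v + s * φ i v)| *
          |((GM f0 v + s • GM φ v).updateCol j (fun i => pd η i v)).det|)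
        ≤ Φ v * (1 * ((d.factorial : ℝ) * (N * m v ^ (d - 1)))) := by
          gcongr
          exact hg1 _
      _ = (d.factorial * N) * (Φ v * m v ^ (d - 1)) := by ring
  have hbound : ∀ s ∈ Ico (0 : ℝ) 1, ‖- ∑ j, ∫ v, BI η g f0 φ s j v‖ ≤ J.toReal := by
    intro s hs
    have hs' : s ∈ Icc (0 : ℝ) 1 := ⟨hs.1, hs.2.le⟩
    rw [norm_neg]
    have h1 : ∀ j, ENNReal.ofReal ‖∫ v, BI η g f0 φ s j v‖ ≤
        ENNReal.ofReal (d.factorial * N) *
          ∫⁻ v in tsupport η, ENNReal.ofReal (Φ v * m v ^ (d - 1)) := by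
      intro j
      rw [ofReal_norm]
      have h2 : ∫ v, BI η g f0 φ s j v = ∫ v in tsupport η, BI η g f0 φ s j v := by
        rw [setIntegral_eq_integral_of_forall_compl_eq_zero]
        intro v hv
        exact BI_eq_zero hv
      rw [h2]
      refine (enorm_integral_le_lintegral_enorm _).trans ?_
      rw [← lintegral_const_mul' _ _ ENNReal.ofReal_ne_top]
      refine setLIntegral_mono' hηc.measurableSet fun v hv => ?_
      rw [← ENNReal.ofReal_mul (by positivity), ← ofReal_norm]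
      exact ENNReal.ofReal_le_ofReal (hBI s hs' j v hv)
    have h3 : ENNReal.ofReal ‖∑ j, ∫ v, BI η g f0 φ s j v‖ ≤ J := by
      calc ENNReal.ofReal ‖∑ j, ∫ v, BI η g f0 φ s j v‖
          ≤ ENNReal.ofReal (∑ j, ‖∫ v, BI η g f0 φ s j v‖) :=
            ENNReal.ofReal_le_ofReal (norm_sum_le _ _)
        _ = ∑ j, ENNReal.ofReal ‖∫ v, BI η g f0 φ s j v‖ :=
            ENNReal.ofReal_sum_of_nonneg fun _ _ => norm_nonneg _
        _ ≤ ∑ j : Fin d, ENNReal.ofReal (d.factorial * N) *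
          ∫⁻ v in tsupport η, ENNReal.ofReal (Φ v * m v ^ (d - 1)) :=
            Finset.sum_le_sum fun j _ => h1 j
        _ = J := by
            rw [Finset.sum_const, Finset.card_univ, Fintype.card_fin, nsmul_eq_mul, hJ,
              ENNReal.ofReal_mul (by positivity : (0:ℝ) ≤ (d : ℝ)), ENNReal.ofReal_natCast,
              mul_assoc]
    rw [← ENNReal.ofReal_le_iff_le_toReal hJtop]
    exact h3
  have hmvt := norm_image_sub_le_of_norm_deriv_le_segment_01'
    (f := fun s => ∫ v, FI η g f0 φ s v) (f' := fun s => - ∑ j, ∫ v, BI η g f0 φ s j v)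
    (C := J.toReal)
    (fun s _ => (hasDerivAt_integral_FI hη hηc hg hf0 hφ s).hasDerivWithinAt) hbound
  rw [hT1, hT0]
  rw [← Real.norm_eq_abs]
  exact (ENNReal.ofReal_le_ofReal hmvt).trans (ENNReal.ofReal_toReal hJtop).le

end Pool.Agent.W769.Kak
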