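import Pool.Agent.W769.Kak.NullLag

set_option autoImplicit false

open MeasureTheory Set Finset

namespace Pool.Agent.W769.Kak

variable {d : ℕ}

theorem hasDerivAt_det (A B : Matrix (Fin d) (Fin d) ℝ) (s : ℝ) :
    HasDerivAt (fun s : ℝ => (A + s • B).det)
      (∑ k, ((A + s • B).updateCol k (fun i => B i k)).det) s := by
  have h1 : (fun s : ℝ => (A + s • B).det) = fun s : ℝ => ∑ σ : Equiv.Perm (Fin d),
      ((Equiv.Perm.sign σ : ℤ) : ℝ) * ∏ i, (A (σ i) i + s * B (σ i) i) := by
    funext s; rw [Matrix.det_apply']; simp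
  have h2 : ∀ σ : Equiv.Perm (Fin d), HasDerivAt (fun s : ℝ => ∏ i, (A (σ i) i + s * B (σ i) i))
      (∑ k, (∏ i ∈ univ.erase k, (A (σ i) i + s * B (σ i) i)) * B (σ k) k) s := by
    intro σ
    have h3 : ∀ i ∈ (univ : Finset (Fin d)),
        HasDerivAt (fun s : ℝ => A (σ i) i + s * B (σ i) i) (B (σ i) i) s := by
      intro i _
      simpa using ((hasDerivAt_id s).mul_const (B (σ i) i)).const_add (A (σ i) i)
    have := HasDerivAt.fun_finsetProd h3
    simpa only [smul_eq_mul] using this
  have h4 : HasDerivAt (fun s : ℝ => ∑ σ : Equiv.Perm (Fin d),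
      ((Equiv.Perm.sign σ : ℤ) : ℝ) * ∏ i, (A (σ i) i + s * B (σ i) i))
      (∑ σ : Equiv.Perm (Fin d), ((Equiv.Perm.sign σ : ℤ) : ℝ) *
        (∑ k, (∏ i ∈ univ.erase k, (A (σ i) i + s * B (σ i) i)) * B (σ k) k)) s := by
    apply HasDerivAt.fun_sum
    intro σ _
    exact (h2 σ).const_mul _
  rw [h1]
  convert h4 using 1
  simp_rw [Finset.mul_sum]
  rw [Finset.sum_comm]
  refine Finset.sum_congr rfl fun k _ => ?_
  rw [Matrix.det_apply']
  refine Finset.sum_congr rfl fun σ _ => ?_
  congr 1
  rw [← Finset.mul_prod_erase univ _ (Finset.mem_univ k)]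
  rw [Matrix.updateCol_self, mul_comm]
  congr 1
  refine Finset.prod_congr rfl fun i hi => ?_
  rw [Matrix.updateCol_ne (Finset.ne_of_mem_erase hi)]
  simp

theorem abs_det_updateCol_le (A : Matrix (Fin d) (Fin d) ℝ) (j : Fin d) (w : Fin d → ℝ) {m N : ℝ}
    (hA : ∀ i k, k ≠ j → |A i k| ≤ m) (hw : ∀ i, |w i| ≤ N) :
    |(A.updateCol j w).det| ≤ (d.factorial : ℝ) * (N * m ^ (d - 1)) := by
  rw [Matrix.det_apply']
  have hN : 0 ≤ N := (abs_nonneg _).trans (hw j)
  calc |∑ σ : Equiv.Perm (Fin d), ((Equiv.Perm.sign σ : ℤ) : ℝ) * ∏ i, (A.updateCol j w) (σ i) i|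
      ≤ ∑ σ : Equiv.Perm (Fin d), |((Equiv.Perm.sign σ : ℤ) : ℝ) *
        ∏ i, (A.updateCol j w) (σ i) i| := Finset.abs_sum_le_sum_abs _ _
    _ ≤ ∑ σ : Equiv.Perm (Fin d), N * m ^ (d - 1) := by
        refine Finset.sum_le_sum fun σ _ => ?_
        rw [abs_mul]
        have hs : |((Equiv.Perm.sign σ : ℤ) : ℝ)| = 1 := by
          rcases Int.units_eq_one_or (Equiv.Perm.sign σ) with h | h <;> simp [h]
        rw [hs, one_mul, ← Finset.mul_prod_erase univ _ (Finset.mem_univ j), abs_mul,
          Matrix.updateCol_self]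
        refine mul_le_mul (hw _) ?_ (abs_nonneg _) hN
        rw [Finset.abs_prod]
        calc ∏ x ∈ univ.erase j, |(A.updateCol j w) (σ x) x| ≤ ∏ x ∈ univ.erase j, m := by
              refine Finset.prod_le_prod (fun _ _ => abs_nonneg _) fun i hi => ?_
              rw [Matrix.updateCol_ne (Finset.ne_of_mem_erase hi)]
              exact hA _ _ (Finset.ne_of_mem_erase hi)
          _ = m ^ (d - 1) := by
              rw [Finset.prod_const, Finset.card_erase_of_mem (Finset.mem_univ j),
                Finset.card_univ, Fintype.card_fin]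
    _ = (d.factorial : ℝ) * (N * m ^ (d - 1)) := by
        rw [Finset.sum_const, Finset.card_univ, Fintype.card_perm, Fintype.card_fin, nsmul_eq_mul]

/-- Gradient of a linear homotopy. -/
theorem GM_add_smul {f φ : Fin d → (Fin d → ℝ) → ℝ} (hf : ∀ i, ContDiff ℝ 1 (f i))
    (hφ : ∀ i, ContDiff ℝ 1 (φ i)) (s : ℝ) (v : Fin d → ℝ) :
    GM (fun i v => f i v + s * φ i v) v = GM f v + s • GM φ v := by
  ext j i
  simp only [GM, pd, Matrix.add_apply, Matrix.smul_apply, smul_eq_mul]
  have h1 := (hf i).differentiable (by norm_num) v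
  have h2 := (hφ i).differentiable (by norm_num) v
  rw [fderiv_fun_add h1 (h2.const_mul s), fderiv_const_mul h2]
  simp

theorem continuous_GM {f : Fin d → (Fin d → ℝ) → ℝ} (hf : ∀ i, ContDiff ℝ 1 (f i)) :
    Continuous (GM f) := by
  refine continuous_matrix fun i j => ?_
  exact continuous_pd (hf j) i

/-- Algebraic identity behind the homotopy formula. -/
theorem homot_alg {η g : (Fin d → ℝ) → ℝ} {F φ : Fin d → (Fin d → ℝ) → ℝ}
    (hη : ContDiff ℝ 1 η) (hg : ContDiff ℝ 1 g) (hF : ∀ i, ContDiff ℝ 1 (F i))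
    (hφ : ∀ i, ContDiff ℝ 1 (φ i)) (j : Fin d) (v : Fin d → ℝ) :
    (GM (Function.update F j (fun v => η v * (φ j v * g (fun i => F i v)))) v).det =
      φ j v * (g (fun i => F i v) * ((GM F v).updateCol j (fun i => pd η i v)).det) +
      η v * (g (fun i => F i v) * ((GM F v).updateCol j (fun i => pd (φ j) i v)).det) +
      η v * (φ j v * (pd g j (fun i => F i v) * (GM F v).det)) := by
  have hcol : GM (Function.update F j (fun v => η v * (φ j v * g (fun i => F i v)))) v =
      (GM F v).updateCol j ((φ j v * g (fun i => F i v)) • (fun i => pd η i v) +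
        ((η v * g (fun i => F i v)) • (fun i => pd (φ j) i v) +
          (η v * φ j v) • (fun i => ∑ k, pd g k (fun i => F i v) • (GM F v) i k))) := by
    ext a b
    by_cases hb : b = j
    · subst hb
      rw [Matrix.updateCol_self]
      simp only [GM, Function.update_self, Pi.add_apply, Pi.smul_apply, smul_eq_mul]
      have hFd : HasFDerivAt (fun v i => F i v) (ContinuousLinearMap.pi fun i => fderiv ℝ (F i) v) v :=
        hasFDerivAt_pi.2 fun i => ((hF i).differentiable (by norm_num) v).hasFDerivAt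
      have hgd : HasFDerivAt g (fderiv ℝ g (fun i => F i v)) (fun i => F i v) :=
        (hg.differentiable (by norm_num) _).hasFDerivAt
      have hgF : HasFDerivAt (fun v => g (fun i => F i v))
          ((fderiv ℝ g (fun i => F i v)).comp
            (ContinuousLinearMap.pi fun i => fderiv ℝ (F i) v)) v := hgd.comp v hFd
      have hφd : HasFDerivAt (φ b) (fderiv ℝ (φ b) v) v :=
        ((hφ b).differentiable (by norm_num) v).hasFDerivAt
      have hηd : HasFDerivAt η (fderiv ℝ η v) v :=
        (hη.differentiable (by norm_num) v).hasFDerivAt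
      have hall := (hηd.mul (hφd.mul hgF)).fderiv
      have hall' : fderiv ℝ (fun v => η v * (φ b v * g (fun i => F i v))) v = _ := hall
      simp only [pd, hall']
      have hsum : (fderiv ℝ g fun i => F i v)
          ((ContinuousLinearMap.pi fun i => fderiv ℝ (F i) v) (Pi.single a 1)) =
          ∑ k, (fderiv ℝ g fun i => F i v) (Pi.single k 1) * (fderiv ℝ (F k) v) (Pi.single a 1) := by
        have : ((ContinuousLinearMap.pi fun i => fderiv ℝ (F i) v) (Pi.single a 1)) =
            ∑ k, ((fderiv ℝ (F k) v) (Pi.single a 1)) • (Pi.single k (1 : ℝ) : Fin d → ℝ) := by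
          ext l
          simp [Finset.sum_apply, Pi.single_apply]
        rw [this, map_sum]
        refine Finset.sum_congr rfl fun k _ => ?_
        rw [map_smul, smul_eq_mul, mul_comm]
      simp only [_root_.add_apply, _root_.smul_apply, smul_eq_mul,
        ContinuousLinearMap.comp_apply, hsum, Pi.mul_apply]
      ring
    · rw [Matrix.updateCol_ne hb]
      simp [GM, Function.update_of_ne hb]
  rw [hcol, Matrix.det_updateCol_add, Matrix.det_updateCol_add, Matrix.det_updateCol_smul,
    Matrix.det_updateCol_smul, Matrix.det_updateCol_smul, Matrix.det_updateCol_sum, smul_eq_mul]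
  ring

end Pool.Agent.W769.Kak
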