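import Pool.Agent.W769.Kak.Homot

set_option autoImplicit false

open MeasureTheory Set Finset

namespace Pool.Agent.W769.Kak

variable {d : ℕ}

/-- integrand along the homotopy -/
noncomputable def FI (η g : (Fin d → ℝ) → ℝ) (f φ : Fin d → (Fin d → ℝ) → ℝ) (s : ℝ)
    (v : Fin d → ℝ) : ℝ :=
  η v * (g (fun i => f i v + s * φ i v) * (GM f v + s • GM φ v).det)

/-- its derivative in `s` -/
noncomputable def FI' (η g : (Fin d → ℝ) → ℝ) (f φ : Fin d → (Fin d → ℝ) → ℝ) (s : ℝ)
    (v : Fin d → ℝ) : ℝ :=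
  η v * ((∑ j, φ j v * pd g j (fun i => f i v + s * φ i v)) * (GM f v + s • GM φ v).det +
    g (fun i => f i v + s * φ i v) *
      ∑ j, ((GM f v + s • GM φ v).updateCol j (fun i => pd (φ j) i v)).det)

theorem hasDerivAt_FI {η g : (Fin d → ℝ) → ℝ} {f φ : Fin d → (Fin d → ℝ) → ℝ}
    (hg : ContDiff ℝ 1 g) (s : ℝ) (v : Fin d → ℝ) :
    HasDerivAt (fun s => FI η g f φ s v) (FI' η g f φ s v) s := by
  unfold FI FI'
  have hp : HasDerivAt (fun s : ℝ => fun i => f i v + s * φ i v) (fun i => φ i v) s := by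
    rw [hasDerivAt_pi]
    intro i
    simpa using ((hasDerivAt_id s).mul_const (φ i v)).const_add (f i v)
  have hgd : HasFDerivAt g (fderiv ℝ g (fun i => f i v + s * φ i v)) (fun i => f i v + s * φ i v) :=
    (hg.differentiable (by norm_num) _).hasFDerivAt
  have h1 : HasDerivAt (fun s : ℝ => g (fun i => f i v + s * φ i v))
      (∑ j, φ j v * pd g j (fun i => f i v + s * φ i v)) s := by
    have := hgd.comp_hasDerivAt s hp
    refine HasDerivAt.congr_deriv this ?_
    have h2 : (fun i => φ i v) = ∑ j, (φ j v) • (Pi.single j (1 : ℝ) : Fin d → ℝ) := by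
      ext l
      simp [Finset.sum_apply, Pi.single_apply]
    rw [h2, map_sum]
    refine Finset.sum_congr rfl fun k _ => ?_
    rw [map_smul, smul_eq_mul, pd]
  have h3 := hasDerivAt_det (GM f v) (GM φ v) s
  exact (h1.mul h3).const_mul (η v)

theorem continuous_fs {f φ : Fin d → (Fin d → ℝ) → ℝ} (hf : ∀ i, ContDiff ℝ 1 (f i))
    (hφ : ∀ i, ContDiff ℝ 1 (φ i)) :
    Continuous (fun p : ℝ × (Fin d → ℝ) => fun i => f i p.2 + p.1 * φ i p.2) := by
  refine continuous_pi fun i => ?_
  exact ((hf i).continuous.comp continuous_snd).add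
    (continuous_fst.mul ((hφ i).continuous.comp continuous_snd))

theorem continuous_Ms {f φ : Fin d → (Fin d → ℝ) → ℝ} (hf : ∀ i, ContDiff ℝ 1 (f i))
    (hφ : ∀ i, ContDiff ℝ 1 (φ i)) :
    Continuous (fun p : ℝ × (Fin d → ℝ) => GM f p.2 + p.1 • GM φ p.2) :=
  ((continuous_GM hf).comp continuous_snd).add
    (continuous_fst.smul ((continuous_GM hφ).comp continuous_snd))

theorem continuous_FI {η g : (Fin d → ℝ) → ℝ} {f φ : Fin d → (Fin d → ℝ) → ℝ}
    (hη : ContDiff ℝ 1 η) (hg : ContDiff ℝ 1 g) (hf : ∀ i, ContDiff ℝ 1 (f i))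
    (hφ : ∀ i, ContDiff ℝ 1 (φ i)) :
    Continuous (fun p : ℝ × (Fin d → ℝ) => FI η g f φ p.1 p.2) := by
  unfold FI
  exact (hη.continuous.comp continuous_snd).mul
    ((hg.continuous.comp (continuous_fs hf hφ)).mul (continuous_Ms hf hφ).matrix_det)

theorem continuous_FI' {η g : (Fin d → ℝ) → ℝ} {f φ : Fin d → (Fin d → ℝ) → ℝ}
    (hη : ContDiff ℝ 1 η) (hg : ContDiff ℝ 1 g) (hf : ∀ i, ContDiff ℝ 1 (f i))
    (hφ : ∀ i, ContDiff ℝ 1 (φ i)) :
    Continuous (fun p : ℝ × (Fin d → ℝ) => FI' η g f φ p.1 p.2) := by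
  unfold FI'
  refine (hη.continuous.comp continuous_snd).mul (Continuous.add ?_ ?_)
  · refine Continuous.mul ?_ (continuous_Ms hf hφ).matrix_det
    refine continuous_finsetSum _ fun j _ => ?_
    exact ((hφ j).continuous.comp continuous_snd).mul
      ((continuous_pd hg j).comp (continuous_fs hf hφ))
  · refine (hg.continuous.comp (continuous_fs hf hφ)).mul ?_
    refine continuous_finsetSum _ fun j _ => ?_
    refine Continuous.matrix_det ?_
    refine (continuous_Ms hf hφ).matrix_updateCol j ?_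
    exact continuous_pi fun i => (continuous_pd (hφ j) i).comp continuous_snd

/-- the boundary density -/
noncomputable def BI (η g : (Fin d → ℝ) → ℝ) (f φ : Fin d → (Fin d → ℝ) → ℝ) (s : ℝ) (j : Fin d)
    (v : Fin d → ℝ) : ℝ :=
  φ j v * (g (fun i => f i v + s * φ i v) *
    ((GM f v + s • GM φ v).updateCol j (fun i => pd η i v)).det)

theorem continuous_BI {η g : (Fin d → ℝ) → ℝ} {f φ : Fin d → (Fin d → ℝ) → ℝ}
    (hη : ContDiff ℝ 1 η) (hg : ContDiff ℝ 1 g) (hf : ∀ i, ContDiff ℝ 1 (f i))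
    (hφ : ∀ i, ContDiff ℝ 1 (φ i)) (s : ℝ) (j : Fin d) :
    Continuous (BI η g f φ s j) := by
  unfold BI
  have h1 : Continuous (fun v : Fin d → ℝ => (s, v)) := by fun_prop
  refine (hφ j).continuous.mul ((hg.continuous.comp ((continuous_fs hf hφ).comp h1)).mul ?_)
  refine Continuous.matrix_det ?_
  refine ((continuous_Ms hf hφ).comp h1).matrix_updateCol j ?_
  exact continuous_pi fun i => continuous_pd hη i

theorem pd_eq_zero_of_notMem {η : (Fin d → ℝ) → ℝ} {v : Fin d → ℝ} (hv : v ∉ tsupport η)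
    (i : Fin d) : pd η i v = 0 := by
  have : fderiv ℝ η v = 0 := by
    have := support_fderiv_subset ℝ (f := η)
    by_contra h
    exact hv (this h)
  simp [pd, this]

theorem BI_eq_zero {η g : (Fin d → ℝ) → ℝ} {f φ : Fin d → (Fin d → ℝ) → ℝ} {s : ℝ} {j : Fin d}
    {v : Fin d → ℝ} (hv : v ∉ tsupport η) : BI η g f φ s j v = 0 := by
  unfold BI
  have : ((GM f v + s • GM φ v).updateCol j (fun i => pd η i v)).det = 0 := by
    apply Matrix.det_eq_zero_of_column_eq_zero j
    intro i
    rw [Matrix.updateCol_self]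
    exact pd_eq_zero_of_notMem hv i
  rw [this]; ring

theorem FI'_eq {η g : (Fin d → ℝ) → ℝ} {f φ : Fin d → (Fin d → ℝ) → ℝ}
    (hη : ContDiff ℝ 1 η) (hg : ContDiff ℝ 1 g) (hf : ∀ i, ContDiff ℝ 1 (f i))
    (hφ : ∀ i, ContDiff ℝ 1 (φ i)) (s : ℝ) (v : Fin d → ℝ) :
    FI' η g f φ s v =
      ∑ j, (GM (Function.update (fun i v => f i v + s * φ i v) j
        (fun v => η v * (φ j v * g (fun i => f i v + s * φ i v)))) v).det
      - ∑ j, BI η g f φ s j v := by
  have hF : ∀ i, ContDiff ℝ 1 (fun v => f i v + s * φ i v) := fun i =>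
    (hf i).add (contDiff_const.mul (hφ i))
  rw [← Finset.sum_sub_distrib]
  have h : ∀ j, (GM (Function.update (fun i v => f i v + s * φ i v) j
        (fun v => η v * (φ j v * g (fun i => f i v + s * φ i v)))) v).det -
      BI η g f φ s j v =
      η v * (g (fun i => f i v + s * φ i v) *
        ((GM f v + s • GM φ v).updateCol j (fun i => pd (φ j) i v)).det) +
      η v * (φ j v * (pd g j (fun i => f i v + s * φ i v) * (GM f v + s • GM φ v).det)) := by
    intro j
    rw [homot_alg hη hg hF hφ j v, GM_add_smul hf hφ, BI]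
    ring
  simp_rw [h]
  unfold FI'
  rw [Finset.sum_add_distrib, mul_add, Finset.mul_sum, Finset.sum_mul, Finset.mul_sum,
    Finset.mul_sum, add_comm]
  congr 1
  refine Finset.sum_congr rfl fun j _ => ?_
  ring

theorem integral_FI' {η g : (Fin d → ℝ) → ℝ} {f φ : Fin d → (Fin d → ℝ) → ℝ}
    (hη : ContDiff ℝ 1 η) (hηc : HasCompactSupport η) (hg : ContDiff ℝ 1 g)
    (hf : ∀ i, ContDiff ℝ 2 (f i)) (hφ : ∀ i, ContDiff ℝ 2 (φ i)) (s : ℝ) :
    ∫ v, FI' η g f φ s v = - ∑ j, ∫ v, BI η g f φ s j v := by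
  have hf1 : ∀ i, ContDiff ℝ 1 (f i) := fun i => (hf i).of_le (by norm_num)
  have hφ1 : ∀ i, ContDiff ℝ 1 (φ i) := fun i => (hφ i).of_le (by norm_num)
  have hF : ∀ i, ContDiff ℝ 2 (fun v => f i v + s * φ i v) := fun i =>
    (hf i).add (contDiff_const.mul (hφ i))
  have hF1 : ∀ i, ContDiff ℝ 1 (fun v => f i v + s * φ i v) := fun i =>
    (hf1 i).add (contDiff_const.mul (hφ1 i))
  have hψ : ∀ j, ContDiff ℝ 1 (fun v => η v * (φ j v * g (fun i => f i v + s * φ i v))) := by
    intro j
    exact hη.mul ((hφ1 j).mul (hg.comp (contDiff_pi.2 fun i => hF1 i)))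
  have hψc : ∀ j, HasCompactSupport
      (fun v => η v * (φ j v * g (fun i => f i v + s * φ i v))) := fun j => hηc.mul_right
  have hU1 : ∀ j i, ContDiff ℝ 1 (Function.update (fun i v => f i v + s * φ i v) j
        (fun v => η v * (φ j v * g (fun i => f i v + s * φ i v))) i) := by
    intro j i
    by_cases hi : i = j
    · subst hi; rw [Function.update_self]; exact hψ i
    · rw [Function.update_of_ne hi]; exact hF1 i
  have hBint : ∀ j, Integrable (BI η g f φ s j) := by
    intro j
    apply (continuous_BI hη hg hf1 hφ1 s j).integrable_of_hasCompactSupport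
    apply HasCompactSupport.intro hηc
    intro v hv
    exact BI_eq_zero hv
  have hNLint : ∀ j, Integrable (fun v => (GM (Function.update (fun i v => f i v + s * φ i v) j
        (fun v => η v * (φ j v * g (fun i => f i v + s * φ i v)))) v).det) := by
    intro j
    apply ((continuous_GM (hU1 j)).matrix_det).integrable_of_hasCompactSupport
    apply HasCompactSupport.intro (hψc j)
    intro v hv
    apply Matrix.det_eq_zero_of_column_eq_zero j
    intro i
    simp only [GM, Function.update_self]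
    exact pd_eq_zero_of_notMem hv i
  have hNL : ∀ j, ∫ v, (GM (Function.update (fun i v => f i v + s * φ i v) j
        (fun v => η v * (φ j v * g (fun i => f i v + s * φ i v)))) v).det = 0 := by
    intro j
    apply null_lagrangian j
    · intro i hi
      rw [Function.update_of_ne hi]; exact hF i
    · rw [Function.update_self]; exact hψ j
    · rw [Function.update_self]; exact hψc j
  simp_rw [FI'_eq hη hg hf1 hφ1 s]
  rw [integral_sub, integral_finsetSum, integral_finsetSum]
  · simp [hNL]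
  · intro j _; exact hBint j
  · intro j _; exact hNLint j
  · exact integrable_finsetSum _ fun j _ => hNLint j
  · exact integrable_finsetSum _ fun j _ => hBint j

theorem hasDerivAt_integral_FI {η g : (Fin d → ℝ) → ℝ} {f φ : Fin d → (Fin d → ℝ) → ℝ}
    (hη : ContDiff ℝ 1 η) (hηc : HasCompactSupport η) (hg : ContDiff ℝ 1 g)
    (hf : ∀ i, ContDiff ℝ 2 (f i)) (hφ : ∀ i, ContDiff ℝ 2 (φ i)) (s : ℝ) :
    HasDerivAt (fun s => ∫ v, FI η g f φ s v) (- ∑ j, ∫ v, BI η g f φ s j v) s := by
  have hf1 : ∀ i, ContDiff ℝ 1 (f i) := fun i => (hf i).of_le (by norm_num)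
  have hφ1 : ∀ i, ContDiff ℝ 1 (φ i) := fun i => (hφ i).of_le (by norm_num)
  rw [← integral_FI' hη hηc hg hf hφ s]
  have hK : IsCompact (Metric.closedBall s 1 ×ˢ tsupport η) :=
    (isCompact_closedBall s 1).prod hηc
  obtain ⟨C, hC⟩ := hK.exists_bound_of_continuousOn (continuous_FI' hη hg hf1 hφ1).continuousOn
  have hFc : ∀ s, Continuous (FI η g f φ s) := fun s =>
    (continuous_FI hη hg hf1 hφ1).comp (by fun_prop : Continuous fun v : Fin d → ℝ => (s, v))
  have hFc' : ∀ s, Continuous (FI' η g f φ s) := fun s =>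
    (continuous_FI' hη hg hf1 hφ1).comp (by fun_prop : Continuous fun v : Fin d → ℝ => (s, v))
  refine (hasDerivAt_integral_of_dominated_loc_of_deriv_le (s := Metric.closedBall s 1)
    (bound := (tsupport η).indicator fun _ => C)
    (Metric.closedBall_mem_nhds s one_pos) ?_ ?_ ?_ ?_ ?_ ?_).2
  · exact Filter.Eventually.of_forall fun s => (hFc s).aestronglyMeasurable
  · exact (hFc s).integrable_of_hasCompactSupport hηc.mul_right
  · exact (hFc' s).aestronglyMeasurable
  · refine Filter.Eventually.of_forall fun v x hx => ?_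
    by_cases hv : v ∈ tsupport η
    · rw [Set.indicator_of_mem hv]
      exact hC (x, v) ⟨hx, hv⟩
    · rw [Set.indicator_of_notMem hv]
      have : η v = 0 := image_eq_zero_of_notMem_tsupport hv
      simp [FI', this]
  · rw [integrable_indicator_iff hηc.measurableSet]
    exact integrableOn_const (hηc.measure_lt_top.ne)
  · exact Filter.Eventually.of_forall fun v x _ => hasDerivAt_FI hg x v

end Pool.Agent.W769.Kak
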