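import Pool.Agent.W769.Kak.Bound

set_option autoImplicit false

open MeasureTheory Set Finset
open scoped Convolution

namespace Pool.Agent.W769.Kak

variable {d : ℕ}

/-- A fixed smooth kernel. -/
structure IsKernel (κ : (Fin d → ℝ) → ℝ) (M : ℝ) : Prop where
  smooth : ContDiff ℝ 2 κ
  supp : ∀ y, 1 < ‖y‖ → κ y = 0
  int : ∫ y, κ y = 1
  bound : ∀ y, |κ y| ≤ M
  bound' : ∀ y j, |pd κ j y| ≤ M

theorem exists_kernel (d : ℕ) : ∃ (κ : (Fin d → ℝ) → ℝ) (M : ℝ), IsKernel κ M := by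
  let b : ContDiffBump (0 : Fin d → ℝ) := ⟨1 / 2, 1, by norm_num, by norm_num⟩
  set κ : (Fin d → ℝ) → ℝ := b.normed volume with hκ
  have hsm : ContDiff ℝ 2 κ := b.contDiff_normed (n := 2)
  have hcs : HasCompactSupport κ := b.hasCompactSupport_normed
  obtain ⟨M1, hM1⟩ := hcs.exists_bound_of_continuous hsm.continuous
  have h1 : ∀ j, ∃ M : ℝ, ∀ y, |pd κ j y| ≤ M := by
    intro j
    have h2 : HasCompactSupport (pd κ j) := hcs.fderiv_apply ℝ _
    obtain ⟨M2, hM2⟩ := h2.exists_bound_of_continuous (continuous_pd (hsm.of_le (by norm_num)) j)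
    exact ⟨M2, hM2⟩
  choose M2 hM2 using h1
  have hM2' : ∀ j, 0 ≤ M2 j := fun j => (abs_nonneg _).trans (hM2 j 0)
  have hM1' : 0 ≤ M1 := (norm_nonneg _).trans (hM1 0)
  refine ⟨κ, M1 + ∑ j, M2 j, hsm, ?_, b.integral_normed, ?_, ?_⟩
  · intro y hy
    have : y ∉ Function.support κ := by
      rw [hκ, b.support_normed_eq]
      simp only [Metric.mem_ball, dist_zero_right, not_lt]
      exact hy.le
    simpa using this
  · intro y
    have := hM1 y
    have h3 : 0 ≤ ∑ j, M2 j := Finset.sum_nonneg fun j _ => hM2' j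
    rw [Real.norm_eq_abs] at this
    linarith
  · intro y j
    have h3 : M2 j ≤ ∑ j, M2 j := Finset.single_le_sum (fun j _ => hM2' j) (Finset.mem_univ j)
    linarith [hM2 j y]

/-- Rescaled kernel. -/
noncomputable def kap (κ : (Fin d → ℝ) → ℝ) (ρ : ℝ) (y : Fin d → ℝ) : ℝ :=
  (ρ ^ d)⁻¹ * κ (ρ⁻¹ • y)

theorem IsKernel.contDiff_kap {κ : (Fin d → ℝ) → ℝ} {M : ℝ} (h : IsKernel κ M) (ρ : ℝ) :
    ContDiff ℝ 2 (kap κ ρ) := by
  unfold kap
  exact contDiff_const.mul (h.smooth.comp (contDiff_const_smul _))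

theorem IsKernel.kap_supp {κ : (Fin d → ℝ) → ℝ} {M : ℝ} (h : IsKernel κ M) {ρ : ℝ} (hρ : 0 < ρ)
    {y : Fin d → ℝ} (hy : ρ < ‖y‖) : kap κ ρ y = 0 := by
  unfold kap
  rw [h.supp, mul_zero]
  rw [norm_smul, norm_inv, Real.norm_of_nonneg hρ.le, inv_mul_eq_div, one_lt_div hρ]
  exact hy

theorem IsKernel.hasCompactSupport_kap {κ : (Fin d → ℝ) → ℝ} {M : ℝ} (h : IsKernel κ M) {ρ : ℝ}
    (hρ : 0 < ρ) : HasCompactSupport (kap κ ρ) := by
  apply HasCompactSupport.intro (isCompact_closedBall (0 : Fin d → ℝ) ρ)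
  intro y hy
  apply h.kap_supp hρ
  simpa using hy

theorem IsKernel.tsupport_kap {κ : (Fin d → ℝ) → ℝ} {M : ℝ} (h : IsKernel κ M) {ρ : ℝ}
    (hρ : 0 < ρ) : tsupport (kap κ ρ) ⊆ Metric.closedBall 0 ρ := by
  apply closure_minimal _ Metric.isClosed_closedBall
  intro y hy
  by_contra h2
  exact hy (h.kap_supp hρ (by simpa using h2))

theorem IsKernel.integral_kap {κ : (Fin d → ℝ) → ℝ} {M : ℝ} (h : IsKernel κ M) {ρ : ℝ}
    (hρ : 0 < ρ) : ∫ y, kap κ ρ y = 1 := by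
  unfold kap
  rw [integral_const_mul, Measure.integral_comp_inv_smul_of_nonneg volume κ hρ.le, h.int]
  simp only [Module.finrank_fintype_fun_eq_card, Fintype.card_fin, smul_eq_mul, mul_one]
  exact inv_mul_cancel₀ (by positivity)

theorem IsKernel.abs_kap_le {κ : (Fin d → ℝ) → ℝ} {M : ℝ} (h : IsKernel κ M) {ρ : ℝ}
    (hρ : 0 < ρ) (y : Fin d → ℝ) : |kap κ ρ y| ≤ (ρ ^ d)⁻¹ * M := by
  unfold kap
  rw [abs_mul, abs_of_nonneg (by positivity : (0:ℝ) ≤ (ρ ^ d)⁻¹)]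
  gcongr
  exact h.bound _

theorem IsKernel.pd_kap {κ : (Fin d → ℝ) → ℝ} {M : ℝ} (h : IsKernel κ M) (ρ : ℝ)
    (j : Fin d) (y : Fin d → ℝ) : pd (kap κ ρ) j y = (ρ ^ d)⁻¹ * (ρ⁻¹ * pd κ j (ρ⁻¹ • y)) := by
  unfold pd
  have h1 : HasFDerivAt κ (fderiv ℝ κ (ρ⁻¹ • y)) (ρ⁻¹ • y) :=
    (h.smooth.differentiable (by norm_num) _).hasFDerivAt
  have h2 : HasFDerivAt (fun y : Fin d → ℝ => ρ⁻¹ • y) (ρ⁻¹ • ContinuousLinearMap.id ℝ _) y :=
    (hasFDerivAt_id y).fun_const_smul _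
  have h3 := (h1.comp y h2).const_mul ((ρ ^ d)⁻¹)
  have h4 : HasFDerivAt (kap κ ρ) _ y := h3
  rw [h4.fderiv]
  simp

theorem IsKernel.abs_pd_kap_le {κ : (Fin d → ℝ) → ℝ} {M : ℝ} (h : IsKernel κ M) {ρ : ℝ}
    (hρ : 0 < ρ) (j : Fin d) (y : Fin d → ℝ) :
    |pd (kap κ ρ) j y| ≤ (ρ ^ d)⁻¹ * (ρ⁻¹ * M) := by
  rw [h.pd_kap, abs_mul, abs_mul, abs_of_nonneg (by positivity : (0:ℝ) ≤ (ρ ^ d)⁻¹),
    abs_of_nonneg (by positivity : (0:ℝ) ≤ ρ⁻¹)]
  gcongr
  exact h.bound' _ _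

theorem IsKernel.integral_pd_kap {κ : (Fin d → ℝ) → ℝ} {M : ℝ} (h : IsKernel κ M) {ρ : ℝ}
    (hρ : 0 < ρ) (j : Fin d) : ∫ y, pd (kap κ ρ) j y = 0 := by
  have hc : HasCompactSupport (pd (kap κ ρ) j) := (h.hasCompactSupport_kap hρ).fderiv_apply ℝ _
  have hC := continuous_pd ((h.contDiff_kap ρ).of_le (by norm_num)) j
  have := integral_mul_fderiv_eq_neg_fderiv_mul_of_integrable (μ := volume)
    (f := fun _ : Fin d → ℝ => (1 : ℝ)) (g := kap κ ρ) (v := Pi.single j 1) (𝕜 := ℝ)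
    (by simp) (by
      have : Integrable (fun x => (fderiv ℝ (kap κ ρ) x) (Pi.single j 1)) volume :=
        hC.integrable_of_hasCompactSupport (μ := volume) hc
      simpa using this)
    (by
      have := (h.contDiff_kap ρ).continuous.integrable_of_hasCompactSupport (μ := volume)
        (h.hasCompactSupport_kap hρ)
      simpa using this)
    (fun x _ => differentiableAt_const _)
    (fun x _ => (h.contDiff_kap ρ).differentiable (by norm_num) x)
  simpa [pd] using this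

/-- Mollification. -/
noncomputable def mol (κ : (Fin d → ℝ) → ℝ) (ρ : ℝ) (a : (Fin d → ℝ) → ℝ) : (Fin d → ℝ) → ℝ :=
  (kap κ ρ ⋆[ContinuousLinearMap.mul ℝ ℝ, volume] a)

theorem mol_apply (κ : (Fin d → ℝ) → ℝ) (ρ : ℝ) (a : (Fin d → ℝ) → ℝ) (v : Fin d → ℝ) :
    mol κ ρ a v = ∫ y, kap κ ρ y * a (v - y) := by
  rw [mol, convolution_def]
  rfl

theorem IsKernel.contDiff_mol {κ : (Fin d → ℝ) → ℝ} {M : ℝ} (h : IsKernel κ M) {ρ : ℝ}
    (hρ : 0 < ρ) {a : (Fin d → ℝ) → ℝ} (ha : Continuous a) : ContDiff ℝ 2 (mol κ ρ a) := by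
  have := HasCompactSupport.contDiff_convolution_left (μ := volume) (n := 2)
    (ContinuousLinearMap.mul ℝ ℝ) (h.hasCompactSupport_kap hρ) (h.contDiff_kap ρ)
    ha.locallyIntegrable
  exact this

/-- Local oscillation of a map at scale `ρ`. -/
noncomputable def osc (a : (Fin d → ℝ) → Fin d → ℝ) (ρ : ℝ) (v : Fin d → ℝ) : ℝ :=
  (ρ ^ d)⁻¹ * ∫ y in Metric.closedBall (0 : Fin d → ℝ) ρ, ‖a (v - y) - a v‖

/-- Kernel estimate. -/
theorem kernel_est {a : (Fin d → ℝ) → Fin d → ℝ} (ha : Continuous a) (i : Fin d)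
    {k : (Fin d → ℝ) → ℝ} (hk : Continuous k) {ρ C : ℝ}
    (hks : ∀ y, ρ < ‖y‖ → k y = 0)
    (hkb : ∀ y, |k y| ≤ (ρ ^ d)⁻¹ * C) (v : Fin d → ℝ) :
    |∫ y, k y * (a (v - y) i - a v i)| ≤ C * osc a ρ v := by
  have hdi : Continuous (fun y => a (v - y) i - a v i) := by fun_prop
  have hdn : Continuous (fun y => ‖a (v - y) - a v‖) := by fun_prop
  have h1 : ∫ y, k y * (a (v - y) i - a v i) =
      ∫ y in Metric.closedBall (0 : Fin d → ℝ) ρ, k y * (a (v - y) i - a v i) := by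
    rw [setIntegral_eq_integral_of_forall_compl_eq_zero]
    intro y hy
    rw [hks y (by simpa using hy), zero_mul]
  rw [h1, ← Real.norm_eq_abs]
  have hc : IsCompact (Metric.closedBall (0 : Fin d → ℝ) ρ) := isCompact_closedBall _ _
  calc ‖∫ y in Metric.closedBall (0 : Fin d → ℝ) ρ, k y * (a (v - y) i - a v i)‖
      ≤ ∫ y in Metric.closedBall (0 : Fin d → ℝ) ρ, ‖k y * (a (v - y) i - a v i)‖ :=
        norm_integral_le_integral_norm _
    _ ≤ ∫ y in Metric.closedBall (0 : Fin d → ℝ) ρ, ((ρ ^ d)⁻¹ * C) * ‖a (v - y) - a v‖ := by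
        apply setIntegral_mono
        · exact ((hk.mul hdi).norm.continuousOn).integrableOn_compact hc
        · exact ((continuous_const.mul hdn).continuousOn).integrableOn_compact hc
        · intro y
          simp only
          rw [norm_mul]
          have h2 : ‖a (v - y) i - a v i‖ ≤ ‖a (v - y) - a v‖ := norm_le_pi_norm (a (v - y) - a v) i
          have h3 : ‖k y‖ ≤ (ρ ^ d)⁻¹ * C := hkb y
          exact mul_le_mul h3 h2 (norm_nonneg _) ((norm_nonneg _).trans h3)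
    _ = C * osc a ρ v := by
        rw [integral_const_mul, osc]; ring

theorem IsKernel.mol_sub_le {κ : (Fin d → ℝ) → ℝ} {M : ℝ} (h : IsKernel κ M) {ρ : ℝ}
    (hρ : 0 < ρ) {a : (Fin d → ℝ) → Fin d → ℝ} (ha : Continuous a) (i : Fin d) (v : Fin d → ℝ) :
    |mol κ ρ (fun v => a v i) v - a v i| ≤ M * osc a ρ v := by
  have hkc := (h.contDiff_kap ρ).continuous
  have hcs := h.hasCompactSupport_kap hρ
  have hi1 : Integrable (fun y => kap κ ρ y * a (v - y) i) :=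
    (hkc.mul (by fun_prop)).integrable_of_hasCompactSupport hcs.mul_right
  have hi2 : Integrable (fun y => kap κ ρ y * a v i) :=
    (hkc.mul continuous_const).integrable_of_hasCompactSupport hcs.mul_right
  have h1 : mol κ ρ (fun v => a v i) v - a v i = ∫ y, kap κ ρ y * (a (v - y) i - a v i) := by
    simp_rw [mul_sub]
    rw [integral_sub hi1 hi2, integral_mul_const, h.integral_kap hρ, one_mul, mol_apply]
  rw [h1]
  exact kernel_est ha i hkc (fun y hy => h.kap_supp hρ hy) (h.abs_kap_le hρ) v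

theorem IsKernel.pd_mol {κ : (Fin d → ℝ) → ℝ} {M : ℝ} (h : IsKernel κ M) {ρ : ℝ}
    (hρ : 0 < ρ) {a : (Fin d → ℝ) → ℝ} (ha : Continuous a) (j : Fin d) (v : Fin d → ℝ) :
    pd (mol κ ρ a) j v = ∫ y, pd (kap κ ρ) j y * a (v - y) := by
  have h1 := HasCompactSupport.hasFDerivAt_convolution_left (μ := volume)
    (ContinuousLinearMap.mul ℝ ℝ) (h.hasCompactSupport_kap hρ)
    ((h.contDiff_kap ρ).of_le (by norm_num)) ha.locallyIntegrable v
  have h2 : fderiv ℝ (mol κ ρ a) v = _ := h1.fderiv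
  rw [pd, h2, convolution_def]
  have hex : Integrable (fun t => ((ContinuousLinearMap.precompL (Fin d → ℝ)
      (ContinuousLinearMap.mul ℝ ℝ)) (fderiv ℝ (kap κ ρ) t)) (a (v - t))) := by
    have := HasCompactSupport.convolutionExists_left (μ := volume)
      (ContinuousLinearMap.precompL (Fin d → ℝ) (ContinuousLinearMap.mul ℝ ℝ))
      ((h.hasCompactSupport_kap hρ).fderiv ℝ) ((h.contDiff_kap ρ).continuous_fderiv (by norm_num))
      ha.locallyIntegrable v
    exact this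
  rw [ContinuousLinearMap.integral_apply hex]
  rfl

theorem IsKernel.abs_pd_mol_le {κ : (Fin d → ℝ) → ℝ} {M : ℝ} (h : IsKernel κ M) {ρ : ℝ}
    (hρ : 0 < ρ) {a : (Fin d → ℝ) → Fin d → ℝ} (ha : Continuous a) (i j : Fin d)
    (v : Fin d → ℝ) :
    |pd (mol κ ρ (fun v => a v i)) j v| ≤ ρ⁻¹ * M * osc a ρ v := by
  have hkc := continuous_pd ((h.contDiff_kap ρ).of_le (by norm_num)) j
  have hcs : HasCompactSupport (pd (kap κ ρ) j) := (h.hasCompactSupport_kap hρ).fderiv_apply ℝ _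
  have hi1 : Integrable (fun y => pd (kap κ ρ) j y * a (v - y) i) :=
    (hkc.mul (by fun_prop)).integrable_of_hasCompactSupport hcs.mul_right
  have hi2 : Integrable (fun y => pd (kap κ ρ) j y * a v i) :=
    (hkc.mul continuous_const).integrable_of_hasCompactSupport hcs.mul_right
  have h1 : pd (mol κ ρ (fun v => a v i)) j v =
      ∫ y, pd (kap κ ρ) j y * (a (v - y) i - a v i) := by
    simp_rw [mul_sub]
    rw [integral_sub hi1 hi2, integral_mul_const, h.integral_pd_kap hρ, zero_mul, sub_zero,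
      h.pd_mol hρ (by fun_prop)]
  rw [h1]
  refine kernel_est ha i hkc ?_ (h.abs_pd_kap_le hρ j) v
  intro y hy
  rw [h.pd_kap]
  have : pd κ j (ρ⁻¹ • y) = 0 := by
    apply pd_eq_zero_of_notMem
    intro h2
    have h3 : tsupport κ ⊆ Metric.closedBall 0 1 := by
      apply closure_minimal _ Metric.isClosed_closedBall
      intro z hz
      by_contra h4
      exact hz (h.supp z (by simpa using h4))
    have h5 := h3 h2
    rw [Metric.mem_closedBall, dist_zero_right, norm_smul, norm_inv, Real.norm_of_nonneg hρ.le,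
      inv_mul_eq_div, div_le_one hρ] at h5
    linarith
  rw [this]; ring

end Pool.Agent.W769.Kak
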