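import Mathlib

set_option autoImplicit false

open MeasureTheory Set Finset

namespace Pool.Agent.W769.Kak

variable {d : ℕ}

/-- Partial derivative in direction `j`. -/
noncomputable def pd (u : (Fin d → ℝ) → ℝ) (j : Fin d) (v : Fin d → ℝ) : ℝ :=
  fderiv ℝ u v (Pi.single j 1)

/-- Gradient matrix, entry `(j, i)` is `∂_j u_i`. -/
noncomputable def GM (u : Fin d → (Fin d → ℝ) → ℝ) (v : Fin d → ℝ) : Matrix (Fin d) (Fin d) ℝ :=
  fun j i => pd (u i) j v

theorem contDiff_pd {u : (Fin d → ℝ) → ℝ} {m n : ℕ∞} (hu : ContDiff ℝ n u) (h : m + 1 ≤ n)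
    (j : Fin d) : ContDiff ℝ m (pd u j) := by
  unfold pd
  exact (hu.fderiv_right (by exact_mod_cast h)).clm_apply contDiff_const

theorem continuous_pd {u : (Fin d → ℝ) → ℝ} (hu : ContDiff ℝ 1 u) (j : Fin d) :
    Continuous (pd u j) := by
  unfold pd
  exact (hu.continuous_fderiv (by norm_num)).clm_apply continuous_const

theorem pd_symm {u : (Fin d → ℝ) → ℝ} (hu : ContDiff ℝ 2 u) (a b : Fin d) (v : Fin d → ℝ) :
    pd (pd u b) a v = pd (pd u a) b v := by
  have h2 : Differentiable ℝ (fderiv ℝ u) :=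
    (hu.fderiv_right (m := 1) (by norm_num)).differentiable (by norm_num)
  have key : ∀ a b : Fin d, pd (pd u b) a v =
      fderiv ℝ (fderiv ℝ u) v (Pi.single a 1) (Pi.single b 1) := by
    intro a b
    unfold pd
    rw [fderiv_clm_apply (h2 v) (differentiableAt_const _)]
    simp
  rw [key, key]
  exact (hu.contDiffAt.isSymmSndFDerivAt (by simp)).eq _ _

/-- Null Lagrangian identity. -/
theorem null_lagrangian (j0 : Fin d) (u : Fin d → (Fin d → ℝ) → ℝ)
    (hu : ∀ i, i ≠ j0 → ContDiff ℝ 2 (u i)) (h0 : ContDiff ℝ 1 (u j0))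
    (hc : HasCompactSupport (u j0)) : ∫ v, (GM u v).det = 0 := by
  classical
  set P : Equiv.Perm (Fin d) → (Fin d → ℝ) → ℝ :=
    fun σ v => ∏ i ∈ univ.erase j0, pd (u i) (σ i) v with hP
  have hPC : ∀ σ, ContDiff ℝ 1 (P σ) := by
    intro σ
    apply contDiff_prod
    intro i hi
    exact contDiff_pd (n := 2) (hu i (Finset.ne_of_mem_erase hi)) (by norm_num) _
  have hdet : ∀ v, (GM u v).det = ∑ σ : Equiv.Perm (Fin d),
      ((Equiv.Perm.sign σ : ℤ) : ℝ) * (P σ v * pd (u j0) (σ j0) v) := by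
    intro v
    rw [Matrix.det_apply']
    refine Finset.sum_congr rfl fun σ _ => ?_
    rw [← Finset.mul_prod_erase univ _ (Finset.mem_univ j0)]
    simp only [GM, hP]
    ring
  have hcs : ∀ j, HasCompactSupport (pd (u j0) j) := by
    intro j
    exact hc.fderiv_apply ℝ _
  have hint1 : ∀ σ, Integrable (fun v => P σ v * pd (u j0) (σ j0) v) := by
    intro σ
    exact ((hPC σ).continuous.mul (continuous_pd h0 _)).integrable_of_hasCompactSupport
      ((hcs _).mul_left)
  have hint2 : ∀ σ, Integrable (fun v => pd (P σ) (σ j0) v * u j0 v) := by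
    intro σ
    exact ((continuous_pd (hPC σ) _).mul h0.continuous).integrable_of_hasCompactSupport
      (hc.mul_left)
  have hint3 : ∀ σ, Integrable (fun v => P σ v * u j0 v) := by
    intro σ
    exact ((hPC σ).continuous.mul h0.continuous).integrable_of_hasCompactSupport
      (hc.mul_left)
  have hibp : ∀ σ, ∫ v, P σ v * pd (u j0) (σ j0) v = - ∫ v, pd (P σ) (σ j0) v * u j0 v := by
    intro σ
    exact integral_mul_fderiv_eq_neg_fderiv_mul_of_integrable (hint2 σ) (hint1 σ) (hint3 σ)
      (fun x _ => (hPC σ).differentiable (by norm_num) x)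
      (fun x _ => h0.differentiable (by norm_num) x)
  have hzero : ∀ v, ∑ σ : Equiv.Perm (Fin d), ((Equiv.Perm.sign σ : ℤ) : ℝ) *
      pd (P σ) (σ j0) v = 0 := by
    intro v
    have hder : ∀ σ : Equiv.Perm (Fin d), pd (P σ) (σ j0) v =
        ∑ k ∈ univ.erase j0, (∏ i ∈ (univ.erase j0).erase k, pd (u i) (σ i) v) *
          pd (pd (u k) (σ k)) (σ j0) v := by
      intro σ
      have hd : ∀ i ∈ univ.erase j0, DifferentiableAt ℝ (pd (u i) (σ i)) v := fun i hi =>
        (contDiff_pd (n := 2) (m := 1) (hu i (Finset.ne_of_mem_erase hi)) (by norm_num) _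
          ).differentiable (by norm_num) v
      have := HasFDerivAt.finsetProd (u := univ.erase j0) (x := v)
        (g := fun i => pd (u i) (σ i)) (g' := fun i => fderiv ℝ (pd (u i) (σ i)) v)
        (fun i hi => (hd i hi).hasFDerivAt)
      have h2 : fderiv ℝ (P σ) v = ∑ i ∈ univ.erase j0,
        (∏ j ∈ (univ.erase j0).erase i, pd (u j) (σ j) v) • fderiv ℝ (pd (u i) (σ i)) v := by
        rw [← this.fderiv]
      unfold pd at h2 ⊢
      rw [h2]
      simp
    simp_rw [hder, Finset.mul_sum]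
    rw [Finset.sum_comm]
    refine Finset.sum_eq_zero fun k hk => ?_
    have hk0 : k ≠ j0 := Finset.ne_of_mem_erase hk
    set Q : Equiv.Perm (Fin d) → ℝ := fun σ => ((Equiv.Perm.sign σ : ℤ) : ℝ) *
      ((∏ i ∈ (univ.erase j0).erase k, pd (u i) (σ i) v) *
          pd (pd (u k) (σ k)) (σ j0) v) with hQ
    have hQs : ∀ σ, Q (σ * Equiv.swap j0 k) = - Q σ := by
      intro σ
      simp only [hQ, Equiv.Perm.sign_mul, Equiv.Perm.sign_swap hk0.symm, Equiv.Perm.coe_mul,
        Function.comp_apply, Equiv.swap_apply_left, Equiv.swap_apply_right]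
      rw [pd_symm (hu k hk0)]
      have : ∏ i ∈ (univ.erase j0).erase k, pd (u i) (σ ((Equiv.swap j0 k) i)) v =
          ∏ i ∈ (univ.erase j0).erase k, pd (u i) (σ i) v := by
        refine Finset.prod_congr rfl fun i hi => ?_
        rw [Equiv.swap_apply_of_ne_of_ne]
        · exact Finset.ne_of_mem_erase (Finset.mem_of_mem_erase hi)
        · exact Finset.ne_of_mem_erase hi
      rw [this]
      push_cast
      ring
    have h1 : ∑ σ, Q σ = ∑ σ, Q (σ * Equiv.swap j0 k) :=
      (Equiv.sum_comp (Equiv.mulRight (Equiv.swap j0 k)) Q).symm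
    have h2 : ∑ σ, Q (σ * Equiv.swap j0 k) = - ∑ σ, Q σ := by
      simp_rw [hQs]
      rw [Finset.sum_neg_distrib]
    have h3 : ∑ σ, Q σ = 0 := by linarith
    exact h3
  simp_rw [hdet]
  rw [integral_finsetSum]
  · simp_rw [integral_const_mul, hibp]
    have : ∑ σ : Equiv.Perm (Fin d), ((Equiv.Perm.sign σ : ℤ) : ℝ) *
        -∫ v, pd (P σ) (σ j0) v * u j0 v =
        - ∫ v, (∑ σ : Equiv.Perm (Fin d), ((Equiv.Perm.sign σ : ℤ) : ℝ) *
      pd (P σ) (σ j0) v) * u j0 v := by
      simp_rw [Finset.sum_mul]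
      rw [integral_finsetSum]
      · rw [← Finset.sum_neg_distrib]
        refine Finset.sum_congr rfl fun σ _ => ?_
        simp_rw [mul_assoc]
        rw [integral_const_mul]
        ring
      · intro σ _
        simp_rw [mul_assoc]
        exact (hint2 σ).const_mul _
    rw [this]
    simp [hzero]
  · intro σ _
    exact (hint1 σ).const_mul _

end Pool.Agent.W769.Kak
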