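import Pool.Agent.W769.Kak.Mollify

set_option autoImplicit false

open MeasureTheory Set Finset

namespace Pool.Agent.W769.Kak

variable {d : ℕ}

theorem osc_nonneg (a : (Fin d → ℝ) → Fin d → ℝ) {ρ : ℝ} (hρ : 0 < ρ) (v : Fin d → ℝ) :
    0 ≤ osc a ρ v := by
  unfold osc
  have : 0 ≤ ∫ y in Metric.closedBall (0 : Fin d → ℝ) ρ, ‖a (v - y) - a v‖ :=
    integral_nonneg fun _ => norm_nonneg _
  positivity

theorem osc_half_le {a : (Fin d → ℝ) → Fin d → ℝ} (ha : Continuous a) {ρ : ℝ} (hρ : 0 < ρ)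
    (v : Fin d → ℝ) : osc a (ρ / 2) v ≤ 2 ^ d * osc a ρ v := by
  unfold osc
  have hdn : Continuous (fun y => ‖a (v - y) - a v‖) := by fun_prop
  have h1 : ∫ y in Metric.closedBall (0 : Fin d → ℝ) (ρ / 2), ‖a (v - y) - a v‖ ≤
      ∫ y in Metric.closedBall (0 : Fin d → ℝ) ρ, ‖a (v - y) - a v‖ := by
    apply setIntegral_mono_set
    · exact hdn.continuousOn.integrableOn_compact (isCompact_closedBall _ _)
    · exact Filter.Eventually.of_forall fun _ => norm_nonneg _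
    · exact (Metric.closedBall_subset_closedBall (by linarith)).eventuallyLE
  have h2 : ((ρ / 2) ^ d)⁻¹ = 2 ^ d * (ρ ^ d)⁻¹ := by
    rw [div_pow, inv_div]; field_simp
  rw [h2, mul_assoc]
  gcongr

theorem osc_pow_le {a : (Fin d → ℝ) → Fin d → ℝ} (ha : Continuous a) {ρ : ℝ} (hρ : 0 < ρ)
    (v : Fin d → ℝ) : osc a ρ v ^ d ≤ 2 ^ (d * d) *
      ((ρ ^ d)⁻¹ * ∫ y in Metric.closedBall (0 : Fin d → ℝ) ρ, ‖a (v - y) - a v‖ ^ d) := by
  have hdn : Continuous (fun y => ‖a (v - y) - a v‖) := by fun_prop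
  have hvol : volume (Metric.closedBall (0 : Fin d → ℝ) ρ) = ENNReal.ofReal ((2 * ρ) ^ d) := by
    rw [Real.volume_pi_closedBall _ hρ.le, Fintype.card_fin]
  have hvr : volume.real (Metric.closedBall (0 : Fin d → ℝ) ρ) = (2 * ρ) ^ d := by
    rw [Measure.real, hvol, ENNReal.toReal_ofReal (by positivity)]
  set μ := (volume : Measure (Fin d → ℝ)).restrict (Metric.closedBall (0 : Fin d → ℝ) ρ) with hμ
  have hfin : IsFiniteMeasure μ := by
    constructor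
    rw [hμ, Measure.restrict_apply_univ, hvol]
    exact ENNReal.ofReal_lt_top
  have hne : NeZero μ := by
    constructor
    intro h
    have : μ univ = 0 := by rw [h]; simp
    rw [hμ, Measure.restrict_apply_univ, hvol, ENNReal.ofReal_eq_zero] at this
    have h2 : (0 : ℝ) < (2 * ρ) ^ d := by positivity
    linarith
  have hμr : μ.real univ = (2 * ρ) ^ d := by
    rw [hμ, Measure.real, Measure.restrict_apply_univ, hvol,
      ENNReal.toReal_ofReal (by positivity)]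
  have hJ := ConvexOn.map_average_le (μ := μ) (s := Ici (0 : ℝ)) (g := fun x : ℝ => x ^ d)
    (f := fun y => ‖a (v - y) - a v‖) (convexOn_pow d) (by fun_prop) isClosed_Ici
    (Filter.Eventually.of_forall fun _ => norm_nonneg _)
    (hdn.continuousOn.integrableOn_compact (isCompact_closedBall _ _))
    ((hdn.pow d).continuousOn.integrableOn_compact (isCompact_closedBall _ _))
  rw [average_eq, average_eq, hμr] at hJ
  have h3 : osc a ρ v = 2 ^ d * (((2 * ρ) ^ d)⁻¹ • ∫ y, ‖a (v - y) - a v‖ ∂μ) := by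
    rw [osc, mul_pow, smul_eq_mul, ← mul_assoc, mul_inv, ← mul_assoc]
    rw [mul_inv_cancel₀ (by positivity), one_mul]
  rw [h3, mul_pow, ← pow_mul]
  calc 2 ^ (d * d) * (((2 * ρ) ^ d)⁻¹ • ∫ y, ‖a (v - y) - a v‖ ∂μ) ^ d
      ≤ 2 ^ (d * d) * (((2 * ρ) ^ d)⁻¹ • ∫ y, ‖a (v - y) - a v‖ ^ d ∂μ) := by gcongr
    _ ≤ 2 ^ (d * d) * ((ρ ^ d)⁻¹ * ∫ y, ‖a (v - y) - a v‖ ^ d ∂μ) := by
        rw [smul_eq_mul]
        have hI : 0 ≤ ∫ y, ‖a (v - y) - a v‖ ^ d ∂μ := integral_nonneg fun _ => by positivity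
        gcongr
        linarith

/-- elementary inequality used at each scale -/
theorem scale_ineq {x ρ B : ℝ} (hx : 0 ≤ x) (hρ : 0 < ρ) (hB : 0 ≤ B) (hd : 0 < d) :
    (B * x) * (B * (ρ⁻¹ * x + 1)) ^ (d - 1) ≤ (2 * B) ^ d * ((ρ ^ (d - 1))⁻¹ * (x ^ d + ρ ^ d)) := by
  have h1 : (B * (ρ⁻¹ * x + 1)) ^ (d - 1) = (ρ ^ (d - 1))⁻¹ * (B * (x + ρ)) ^ (d - 1) := by
    rw [← inv_pow, ← mul_pow]
    congr 1
    field_simp
  have h2 : x ≤ x + ρ := by linarith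
  have hdd : d = (d - 1) + 1 := by omega
  have h3 : (x + ρ) ^ d ≤ 2 ^ d * (x ^ d + ρ ^ d) := by
    rcases le_total x ρ with h | h
    · calc (x + ρ) ^ d ≤ (2 * ρ) ^ d := by gcongr; linarith
        _ = 2 ^ d * ρ ^ d := by rw [mul_pow]
        _ ≤ 2 ^ d * (x ^ d + ρ ^ d) := by
            have : 0 ≤ x ^ d := by positivity
            gcongr; linarith
    · calc (x + ρ) ^ d ≤ (2 * x) ^ d := by gcongr; linarith
        _ = 2 ^ d * x ^ d := by rw [mul_pow]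
        _ ≤ 2 ^ d * (x ^ d + ρ ^ d) := by
            have : 0 ≤ ρ ^ d := by positivity
            gcongr; linarith
  calc (B * x) * (B * (ρ⁻¹ * x + 1)) ^ (d - 1)
      = (ρ ^ (d - 1))⁻¹ * ((B * x) * (B * (x + ρ)) ^ (d - 1)) := by rw [h1]; ring
    _ ≤ (ρ ^ (d - 1))⁻¹ * ((B * (x + ρ)) * (B * (x + ρ)) ^ (d - 1)) := by gcongr
    _ = (ρ ^ (d - 1))⁻¹ * (B * (x + ρ)) ^ d := by
        congr 1
        conv_rhs => rw [hdd, pow_succ]
        ring
    _ = (ρ ^ (d - 1))⁻¹ * (B ^ d * (x + ρ) ^ d) := by rw [mul_pow]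
    _ ≤ (ρ ^ (d - 1))⁻¹ * (B ^ d * (2 ^ d * (x ^ d + ρ ^ d))) := by gcongr
    _ = (2 * B) ^ d * ((ρ ^ (d - 1))⁻¹ * (x ^ d + ρ ^ d)) := by rw [mul_pow]; ring

end Pool.Agent.W769.Kak
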