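import Pool.Agent.W769.Kak.Wrap

set_option autoImplicit false

open MeasureTheory Set Finset Topology Filter
open scoped MeasureTheory NNReal ENNReal

namespace Pool.Agent.W769.Kak

theorem exists_iota {n k : ℕ} (hkn : k + 1 ≤ n) (p : Fin n) :
    ∃ ι : Fin (k + 1) → Fin n, Function.Injective ι ∧ ι 0 = p := by
  let z : Fin n := Fin.castLE hkn 0
  refine ⟨fun j => Equiv.swap z p (Fin.castLE hkn j), ?_, ?_⟩
  · intro i j hij
    exact Fin.castLE_injective hkn ((Equiv.swap z p).injective hij)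
  · exact Equiv.swap_apply_left z p

/-- bad heights form a finite set -/
theorem bad_finite {k : ℕ} {a : (Fin k → ℝ) → Fin k → ℝ} {B : Set (Fin k → ℝ)}
    (h : ∀ t : Fin (k + 1) → ℝ, Function.Injective t → ∃ i, volume ((fun v => a v + t i • v) '' B) ≠ 0)
    (c : Fin k → ℝ) {q : ℝ} (hq : q ≠ 0) :
    {t : ℝ | volume ((fun v => a v + t • (c + q⁻¹ • v)) '' B) = 0}.Countable := by
  have h1 : {t : ℝ | volume ((fun v => a v + t • v) '' B) = 0}.encard ≤ k :=
    encard_bad_le (P := fun t => volume ((fun v => a v + t • v) '' B) = 0) h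
  have h2 : {t : ℝ | volume ((fun v => a v + t • v) '' B) = 0}.Finite :=
    Set.finite_of_encard_le_coe h1
  have h3 : {t : ℝ | volume ((fun v => a v + t • (c + q⁻¹ • v)) '' B) = 0} ⊆
      (fun s => q * s) '' {t : ℝ | volume ((fun v => a v + t • v) '' B) = 0} := by
    intro t ht
    refine ⟨q⁻¹ * t, ?_, by field_simp⟩
    have h4 : (fun v => a v + t • (c + q⁻¹ • v)) '' B =
        (fun y => y + t • c) '' ((fun v => a v + (q⁻¹ * t) • v) '' B) := by
      rw [Set.image_image]
      apply Set.image_congr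
      intro v _
      rw [smul_add, smul_smul, mul_comm t]
      abel
    have h5 : volume ((fun v => a v + t • (c + q⁻¹ • v)) '' B) = 0 := ht
    rw [h4, Set.image_add_right, measure_preimage_add_right] at h5
    exact h5
  exact (h2.image _).countable.mono h3

/-- **Hölder selections of unit segments over an open set of directions.** -/
theorem hoelder_sphere {n k : ℕ} (hk : 1 ≤ k) (hkn : k + 1 ≤ n) {α C : ℝ}
    (hα : 1 - 1 / (k : ℝ) < α) (hα1 : α ≤ 1)
    {W : Set (EuclideanSpace ℝ (Fin n))} (hW : IsOpen W) {e0 : EuclideanSpace ℝ (Fin n)}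
    (he0 : e0 ∈ W) (he1 : ‖e0‖ = 1)
    {x : EuclideanSpace ℝ (Fin n) → EuclideanSpace ℝ (Fin n)}
    (hx : ∀ e ∈ W, ‖e‖ = 1 → ∀ e' ∈ W, ‖e'‖ = 1 → ‖x e - x e'‖ ≤ C * ‖e - e'‖ ^ α)
    {K : Set (EuclideanSpace ℝ (Fin n))}
    (hK : ∀ e ∈ W, ‖e‖ = 1 → ∀ s ∈ Icc (0 : ℝ) 1, x e + s • e ∈ K) :
    ∃ ι : Fin (k + 1) → Fin n, volume (proj ι '' K) ≠ 0 := by
  have hkpos : (0 : ℝ) < k := by exact_mod_cast hk
  have hα0 : 0 < α := by
    have : 1 / (k : ℝ) ≤ 1 := by
      rw [div_le_one hkpos]; exact_mod_cast hk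
    linarith
  have hαk : (k : ℝ) - 1 < α * k := by
    have := mul_lt_mul_of_pos_right hα hkpos
    rw [sub_mul, one_div, inv_mul_cancel₀ hkpos.ne'] at this
    linarith
  obtain ⟨p, hp⟩ : ∃ p, e0 p ≠ 0 := by
    by_contra hcon
    push Not at hcon
    have : e0 = 0 := by ext i; exact hcon i
    rw [this, norm_zero] at he1
    exact zero_ne_one he1
  obtain ⟨ι, hι, hι0⟩ := exists_iota hkn p
  refine ⟨ι, ?_⟩
  set q := e0 p with hq
  -- chart
  set u : (Fin k → ℝ) → EuclideanSpace ℝ (Fin n) := fun v =>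
    e0 + ∑ j, v j • EuclideanSpace.single (ι j.succ) (1 : ℝ) with hu
  have hup : ∀ v, u v p = q := by
    intro v
    simp only [hu, PiLp.add_apply, WithLp.ofLp_sum, Finset.sum_apply, PiLp.smul_apply,
      smul_eq_mul]
    rw [Finset.sum_eq_zero]
    · simp [hq]
    · intro j _
      rw [PiLp.single_apply, if_neg, mul_zero]
      rw [← hι0]
      intro h
      exact (Fin.succ_ne_zero j) (hι h).symm
  have huj : ∀ v j, u v (ι j.succ) = e0 (ι j.succ) + v j := by
    intro v j
    simp only [hu, PiLp.add_apply, WithLp.ofLp_sum, Finset.sum_apply, PiLp.smul_apply,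
      smul_eq_mul]
    rw [Finset.sum_eq_single j]
    · simp
    · intro i _ hij
      rw [PiLp.single_apply, if_neg, mul_zero]
      intro h
      exact hij (Fin.succ_injective _ (hι h)).symm
    · simp
  have hu0 : u 0 = e0 := by simp [hu]
  have hucd : ContDiff ℝ 1 u := by
    rw [hu]
    apply contDiff_const.add
    apply ContDiff.sum
    intro j _
    exact (contDiff_apply ℝ ℝ j).smul contDiff_const
  set en : (Fin k → ℝ) → EuclideanSpace ℝ (Fin n) := fun v => ‖u v‖⁻¹ • u v with hen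
  have hunz : ∀ v, u v ≠ 0 := by
    intro v h
    apply hp
    rw [← hup v, h]; rfl
  have hen1 : ∀ v, ‖en v‖ = 1 := by
    intro v
    rw [hen]
    simp only [norm_smul, norm_inv, norm_norm]
    exact inv_mul_cancel₀ (norm_ne_zero_iff.2 (hunz v))
  have hen0 : en 0 = e0 := by simp [hen, hu0, he1]
  have hencd : ContDiff ℝ 1 en := by
    have h1 : ContDiff ℝ 1 (fun v => ‖u v‖⁻¹) :=
      (hucd.norm ℝ hunz).inv fun v => norm_ne_zero_iff.2 (hunz v)
    exact h1.smul hucd
  have henc : Continuous en := hencd.continuous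
  obtain ⟨L, T, hT, hLT⟩ := hencd.contDiffAt.exists_lipschitzOnWith (x := 0)
  -- continuity of x ∘ en at 0
  set h : (Fin k → ℝ) → ℝ := fun v => x (en v) p with hh
  have hWn : ∀ᶠ v in 𝓝 (0 : Fin k → ℝ), en v ∈ W :=
    henc.continuousAt.eventually (by rw [hen0]; exact hW.mem_nhds he0)
  have hxest : ∀ v w, en v ∈ W → en w ∈ W → v ∈ T → w ∈ T →
      ‖x (en v) - x (en w)‖ ≤ |C| * (L * ‖v - w‖) ^ α := by
    intro v w hv hw hvT hwT
    calc ‖x (en v) - x (en w)‖ ≤ C * ‖en v - en w‖ ^ α := hx _ hv (hen1 v) _ hw (hen1 w)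
      _ ≤ |C| * (L * ‖v - w‖) ^ α := by
        have h1 := hLT.dist_le_mul v hvT w hwT
        rw [dist_eq_norm, dist_eq_norm] at h1
        gcongr
        exact le_abs_self C
  set A : ℝ := |C| * (L : ℝ) ^ α with hA
  have hA0 : 0 ≤ A := by positivity
  have hxest' : ∀ v w, en v ∈ W → en w ∈ W → v ∈ T → w ∈ T →
      ‖x (en v) - x (en w)‖ ≤ A * ‖v - w‖ ^ α := by
    intro v w hv hw hvT hwT
    refine (hxest v w hv hw hvT hwT).trans_eq ?_
    rw [Real.mul_rpow (by positivity) (norm_nonneg _), hA, mul_assoc]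
  -- small radius
  have hq0 : 0 < |q| := abs_pos.2 hp
  have hev1 : ∀ᶠ v in 𝓝 (0 : Fin k → ℝ), A * ‖v - 0‖ ^ α < |q| / 6 := by
    have hc : Continuous (fun v : Fin k → ℝ => A * ‖v - 0‖ ^ α) := by
      apply continuous_const.mul
      exact ((continuous_id.sub continuous_const).norm).rpow_const (fun _ => Or.inr hα0.le)
    apply hc.continuousAt.eventually_lt continuousAt_const
    simp [Real.zero_rpow hα0.ne']
    exact hp
  have hev2 : ∀ᶠ v in 𝓝 (0 : Fin k → ℝ), |en v p - q| < |q| / 6 := by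
    have hc : Continuous (fun v : Fin k → ℝ => |en v p - q|) := by
      have : Continuous (fun v => en v p) := by
        have h1 : Continuous (fun y : EuclideanSpace ℝ (Fin n) => y p) := by fun_prop
        exact h1.comp henc
      exact (this.sub continuous_const).abs
    apply hc.continuousAt.eventually_lt continuousAt_const
    rw [hen0, ← hq, sub_self, abs_zero]; positivity
  have hev3 : ∀ᶠ v in 𝓝 (0 : Fin k → ℝ), v ∈ T := hT
  have hev4 : ∀ᶠ v in 𝓝 (0 : Fin k → ℝ), v ∈ Metric.closedBall (0 : Fin k → ℝ) (1 / 2) :=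
    Metric.closedBall_mem_nhds _ (by norm_num)
  obtain ⟨R, hR, hRall⟩ := Metric.nhds_basis_closedBall.eventually_iff.1
    (hWn.and (hev1.and (hev2.and (hev3.and hev4))))
  have h0mem : (0 : Fin k → ℝ) ∈ Metric.closedBall (0 : Fin k → ℝ) R :=
    Metric.mem_closedBall_self hR.le
  -- the reduced selection
  set c : Fin k → ℝ := fun j => q⁻¹ * e0 (ι j.succ) with hc
  set a : (Fin k → ℝ) → Fin k → ℝ := fun v j =>
    x (en v) (ι j.succ) - h v * (c j + q⁻¹ * v j) with ha
  have hhest : ∀ v ∈ Metric.closedBall (0 : Fin k → ℝ) R, ∀ w ∈ Metric.closedBall (0 : Fin k → ℝ) R,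
      |h v - h w| ≤ A * ‖v - w‖ ^ α := by
    intro v hv w hw
    obtain ⟨v1, v2, v3, v4, v5⟩ := hRall hv
    obtain ⟨w1, w2, w3, w4, w5⟩ := hRall hw
    refine le_trans ?_ (hxest' v w v1 w1 v4 w4)
    have := PiLp.norm_apply_le (x (en v) - x (en w)) p
    simpa [hh] using this
  have hhb : ∀ v ∈ Metric.closedBall (0 : Fin k → ℝ) R, |h v| ≤ |h 0| + |q| / 6 := by
    intro v hv
    have h1 := hhest v hv 0 h0mem
    have h2 := (hRall hv).2.1
    have h3 : |h v| ≤ |h 0| + |h v - h 0| := by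
      have := abs_add_le (h 0) (h v - h 0)
      simpa using this
    linarith
  -- Hölder estimate for `a`
  set S : ℝ := ∑ j, |c j| + |q|⁻¹ with hS
  have hS0 : 0 ≤ S := by positivity
  have hσb : ∀ v ∈ Metric.closedBall (0 : Fin k → ℝ) R, ∀ j, |c j + q⁻¹ * v j| ≤ S := by
    intro v hv j
    have h5 := (hRall hv).2.2.2.2
    rw [Metric.mem_closedBall, dist_zero_right] at h5
    have h6 : |v j| ≤ 1 := by
      have := norm_le_pi_norm v j
      rw [Real.norm_eq_abs] at this
      linarith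
    calc |c j + q⁻¹ * v j| ≤ |c j| + |q⁻¹ * v j| := abs_add_le _ _
      _ ≤ ∑ j, |c j| + |q|⁻¹ := by
        rw [abs_mul q⁻¹ (v j), abs_inv]
        have h7 : |c j| ≤ ∑ j, |c j| :=
          Finset.single_le_sum (f := fun j => |c j|) (fun _ _ => abs_nonneg _) (Finset.mem_univ j)
        have h8 : |q|⁻¹ * |v j| ≤ |q|⁻¹ * 1 := by gcongr
        linarith
  have hHa : ∀ v ∈ Metric.closedBall (0 : Fin k → ℝ) R, ∀ w ∈ Metric.closedBall (0 : Fin k → ℝ) R,
      ‖a v - a w‖ ≤ (A + A * S + (|h 0| + |q| / 6) * |q|⁻¹) * ‖v - w‖ ^ α := by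
    intro v hv w hw
    obtain ⟨v1, v2, v3, v4, v5⟩ := hRall hv
    obtain ⟨w1, w2, w3, w4, w5⟩ := hRall hw
    have hvw : ‖v - w‖ ≤ ‖v - w‖ ^ α := by
      have h1 : ‖v - w‖ ≤ 1 := by
        rw [Metric.mem_closedBall, dist_zero_right] at v5 w5
        calc ‖v - w‖ ≤ ‖v‖ + ‖w‖ := norm_sub_le _ _
          _ ≤ 1 := by linarith
      calc ‖v - w‖ = ‖v - w‖ ^ (1 : ℝ) := (Real.rpow_one _).symm
        _ ≤ ‖v - w‖ ^ α := Real.rpow_le_rpow_of_exponent_ge' (norm_nonneg _) h1 hα0.le hα1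
    have hr0 : 0 ≤ ‖v - w‖ ^ α := by positivity
    rw [pi_norm_le_iff_of_nonneg (by positivity)]
    intro j
    have h1 : (a v - a w) j = (x (en v) (ι j.succ) - x (en w) (ι j.succ)) -
        (h v - h w) * (c j + q⁻¹ * v j) - h w * (q⁻¹ * (v j - w j)) := by
      simp only [ha, Pi.sub_apply]; ring
    rw [h1, Real.norm_eq_abs]
    have h2 : |x (en v) (ι j.succ) - x (en w) (ι j.succ)| ≤ A * ‖v - w‖ ^ α := by
      refine le_trans ?_ (hxest' v w v1 w1 v4 w4)
      have := PiLp.norm_apply_le (x (en v) - x (en w)) (ι j.succ)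
      simpa using this
    have h3 : |(h v - h w) * (c j + q⁻¹ * v j)| ≤ A * ‖v - w‖ ^ α * S := by
      rw [abs_mul]
      exact mul_le_mul (hhest v hv w hw) (hσb v hv j) (abs_nonneg _) (by positivity)
    have h4 : |h w * (q⁻¹ * (v j - w j))| ≤ (|h 0| + |q| / 6) * (|q|⁻¹ * ‖v - w‖ ^ α) := by
      rw [abs_mul, abs_mul, abs_inv]
      have h5 : |v j - w j| ≤ ‖v - w‖ := norm_le_pi_norm (v - w) j
      have h6 : |v j - w j| ≤ ‖v - w‖ ^ α := h5.trans hvw
      gcongr
      exact hhb w hw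
    calc |x (en v) (ι j.succ) - x (en w) (ι j.succ) -
        (h v - h w) * (c j + q⁻¹ * v j) - h w * (q⁻¹ * (v j - w j))|
        ≤ |x (en v) (ι j.succ) - x (en w) (ι j.succ) - (h v - h w) * (c j + q⁻¹ * v j)| +
          |h w * (q⁻¹ * (v j - w j))| := abs_sub _ _
      _ ≤ |x (en v) (ι j.succ) - x (en w) (ι j.succ)| + |(h v - h w) * (c j + q⁻¹ * v j)| +
          |h w * (q⁻¹ * (v j - w j))| := by gcongr; exact abs_sub _ _
      _ ≤ A * ‖v - w‖ ^ α + A * ‖v - w‖ ^ α * S +
          (|h 0| + |q| / 6) * (|q|⁻¹ * ‖v - w‖ ^ α) := by gcongr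
      _ = (A + A * S + (|h 0| + |q| / 6) * |q|⁻¹) * ‖v - w‖ ^ α := by ring
  have hacont : ContinuousOn a (Metric.closedBall (0 : Fin k → ℝ) R) := by
    set C' := A + A * S + (|h 0| + |q| / 6) * |q|⁻¹
    intro v hv
    rw [ContinuousWithinAt, tendsto_iff_norm_sub_tendsto_zero]
    have h1 : Tendsto (fun w : Fin k → ℝ => C' * ‖w - v‖ ^ α)
        (𝓝[Metric.closedBall (0 : Fin k → ℝ) R] v) (𝓝 0) := by
      have hc : Continuous (fun w : Fin k → ℝ => C' * ‖w - v‖ ^ α) := by
        apply continuous_const.mul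
        exact ((continuous_id.sub continuous_const).norm).rpow_const (fun _ => Or.inr hα0.le)
      have := hc.tendsto v
      simp only [sub_self, norm_zero, Real.zero_rpow hα0.ne', mul_zero] at this
      exact this.mono_left nhdsWithin_le_nhds
    apply squeeze_zero' (Eventually.of_forall fun _ => norm_nonneg _) _ h1
    filter_upwards [self_mem_nhdsWithin] with w hw
    exact hHa w hw v hv
  -- slices
  have hslices := fun t ht => slices_hoelder_on (a := a) hk (0 : Fin k → ℝ) hR hα0 hαk hacont hHa t ht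
  have hbad := bad_finite hslices c hp
  have h12 : min (h 0 + q / 3) (h 0 + q * 2 / 3) < max (h 0 + q / 3) (h 0 + q * 2 / 3) := by
    rw [min_lt_max]
    intro h1
    apply hp
    linarith
  apply swept_pos (σ := fun v => c + q⁻¹ • v) hacont (by fun_prop) h12 hbad
  intro v hv t ht
  obtain ⟨v1, v2, v3, v4, v5⟩ := hRall hv
  -- the parameter on the segment
  have hr : |(h v - h 0) / q| ≤ 1 / 6 := by
    rw [abs_div, div_le_iff₀ hq0]
    have h1 := hhest v hv 0 h0mem
    linarith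
  have hτ : (t - h 0) / q ∈ Icc (1 / 3 : ℝ) (2 / 3) := by
    rcases lt_or_gt_of_ne hp with hneg | hpos
    · have h1 : min (h 0 + q / 3) (h 0 + q * 2 / 3) = h 0 + q * 2 / 3 :=
        min_eq_right (by linarith)
      have h2 : max (h 0 + q / 3) (h 0 + q * 2 / 3) = h 0 + q / 3 := max_eq_left (by linarith)
      rw [h1, h2] at ht
      constructor
      · rw [le_div_iff_of_neg hneg]; linarith [ht.2]
      · rw [div_le_iff_of_neg hneg]; linarith [ht.1]
    · have h1 : min (h 0 + q / 3) (h 0 + q * 2 / 3) = h 0 + q / 3 := min_eq_left (by linarith)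
      have h2 : max (h 0 + q / 3) (h 0 + q * 2 / 3) = h 0 + q * 2 / 3 := max_eq_right (by linarith)
      rw [h1, h2] at ht
      constructor
      · rw [le_div_iff₀ hpos]; linarith [ht.1]
      · rw [div_le_iff₀ hpos]; linarith [ht.2]
  have hqq : |en v p / q - 1| ≤ 1 / 6 := by
    have h1 : en v p / q - 1 = (en v p - q) / q := by field_simp
    rw [h1, abs_div, div_le_iff₀ hq0]
    linarith
  have henp : en v p ≠ 0 := by
    intro h1
    rw [h1, zero_div, zero_sub, abs_neg, abs_one] at hqq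
    norm_num at hqq
  set s := (t - h v) / en v p with hs
  have hs' : s = ((t - h 0) / q - (h v - h 0) / q) / (en v p / q) := by
    rw [hs]; field_simp; ring
  have hs01 : s ∈ Icc (0 : ℝ) 1 := by
    rw [abs_le] at hr hqq
    have hpos : 0 < en v p / q := by linarith [hqq.1]
    rw [hs']
    constructor
    · apply div_nonneg _ hpos.le
      linarith [hτ.1, hr.2]
    · rw [div_le_one hpos]
      linarith [hτ.2, hr.1, hqq.1]
  refine ⟨x (en v) + s • en v, hK _ v1 (hen1 v) s hs01, ?_⟩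
  funext i
  refine Fin.cases ?_ (fun j => ?_) i
  · simp only [proj, Fin.cons_zero, hι0, PiLp.add_apply, PiLp.smul_apply, smul_eq_mul]
    rw [hs]
    have : h v = x (en v) p := rfl
    rw [← this]
    field_simp
    ring
  · simp only [proj, Fin.cons_succ, PiLp.add_apply, PiLp.smul_apply, smul_eq_mul, Pi.add_apply,
      Pi.smul_apply, ha]
    have h1 : en v (ι j.succ) = en v p * (c j + q⁻¹ * v j) := by
      simp only [hen, PiLp.smul_apply, smul_eq_mul, hup, huj, hc]
      field_simp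
    rw [h1, hs]
    field_simp
    ring

end Pool.Agent.W769.Kak
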