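import Pool.Agent.W769.Kak.Osc

set_option autoImplicit false

open MeasureTheory Set Finset
namespace Pool.Agent.W769.Kak

variable {d : ℕ}

/-- dyadic scales -/
noncomputable def sc (ρ0 : ℝ) (k : ℕ) : ℝ := ρ0 * (1 / 2) ^ k

theorem sc_pos {ρ0 : ℝ} (h : 0 < ρ0) (k : ℕ) : 0 < sc ρ0 k := by unfold sc; positivity

theorem sc_succ (ρ0 : ℝ) (k : ℕ) : sc ρ0 (k + 1) = sc ρ0 k / 2 := by
  unfold sc; rw [pow_succ]; ring

theorem sc_anti {ρ0 : ℝ} (h : 0 < ρ0) {k l : ℕ} (hkl : k ≤ l) : sc ρ0 l ≤ sc ρ0 k := by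
  unfold sc
  gcongr ρ0 * ?_
  exact pow_le_pow_of_le_one (by norm_num) (by norm_num) hkl

theorem sum_inv_le {ρ0 : ℝ} (h : 0 < ρ0) {m : ℕ} (hm : 0 < m) (n : ℕ) :
    ∑ k ∈ Finset.range n, (sc ρ0 k ^ m)⁻¹ ≤ (sc ρ0 n ^ m)⁻¹ := by
  induction n with
  | zero => simp; exact (pow_pos (sc_pos h 0) m).le
  | succ n ih =>
    rw [Finset.sum_range_succ, sc_succ, div_pow, inv_div]
    have hp : 0 < (sc ρ0 n ^ m)⁻¹ := inv_pos.2 (pow_pos (sc_pos h n) m)
    have h2 : (2 : ℝ) ≤ 2 ^ m := by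
      calc (2 : ℝ) = 2 ^ 1 := by norm_num
        _ ≤ 2 ^ m := pow_le_pow_right₀ (by norm_num) hm
    calc ∑ k ∈ Finset.range n, (sc ρ0 k ^ m)⁻¹ + (sc ρ0 n ^ m)⁻¹
        ≤ 2 * (sc ρ0 n ^ m)⁻¹ := by linarith
      _ ≤ 2 ^ m * (sc ρ0 n ^ m)⁻¹ := by gcongr
      _ = 2 ^ m / sc ρ0 n ^ m := by rw [div_eq_mul_inv]

theorem sum_ind_le {ρ0 : ℝ} (h : 0 < ρ0) {m : ℕ} (hm : 0 < m) {r : ℝ} (hr : 0 < r) (n : ℕ) :
    ∑ k ∈ Finset.range n, (if r ≤ sc ρ0 k then (sc ρ0 k ^ m)⁻¹ else 0) ≤ 2 * (r ^ m)⁻¹ := by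
  induction n with
  | zero => simp; positivity
  | succ n ih =>
    by_cases hn : r ≤ sc ρ0 n
    · have h1 : ∑ k ∈ Finset.range (n + 1), (if r ≤ sc ρ0 k then (sc ρ0 k ^ m)⁻¹ else 0) =
          ∑ k ∈ Finset.range (n + 1), (sc ρ0 k ^ m)⁻¹ := by
        refine Finset.sum_congr rfl fun k hk => ?_
        rw [if_pos]
        exact hn.trans (sc_anti h (Nat.lt_succ_iff.1 (Finset.mem_range.1 hk)))
      rw [h1, Finset.sum_range_succ]
      have h2 := sum_inv_le h hm n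
      have h3 : (sc ρ0 n ^ m)⁻¹ ≤ (r ^ m)⁻¹ := by
        gcongr
      linarith
    · rw [Finset.sum_range_succ, if_neg hn, add_zero]
      exact ih

open scoped Classical in
theorem tsum_ind_le {ρ0 : ℝ} (h : 0 < ρ0) {m : ℕ} (hm : 0 < m) (y : Fin d → ℝ) :
    ∑' k, (if y ∈ Metric.closedBall (0 : Fin d → ℝ) (sc ρ0 k) then
      ENNReal.ofReal ((sc ρ0 k ^ m)⁻¹) else 0) ≤ 2 * (‖y‖ₑ ^ m)⁻¹ := by
  rcases eq_or_ne y 0 with hy | hy
  · subst hy
    rw [enorm_zero, zero_pow hm.ne', ENNReal.inv_zero, ENNReal.mul_top (by norm_num)]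
    exact le_top
  · have hy' : 0 < ‖y‖ := norm_pos_iff.2 hy
    apply ENNReal.tsum_le_of_sum_range_le
    intro n
    have h1 := sum_ind_le h hm hy' n
    have h2 : ∑ k ∈ Finset.range n, (if y ∈ Metric.closedBall (0 : Fin d → ℝ) (sc ρ0 k) then
      ENNReal.ofReal ((sc ρ0 k ^ m)⁻¹) else 0) =
      ENNReal.ofReal (∑ k ∈ Finset.range n, (if ‖y‖ ≤ sc ρ0 k then (sc ρ0 k ^ m)⁻¹ else 0)) := by
      rw [ENNReal.ofReal_sum_of_nonneg]
      · refine Finset.sum_congr rfl fun k _ => ?_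
        by_cases hk : ‖y‖ ≤ sc ρ0 k
        · rw [if_pos (by simpa using hk), if_pos hk]
        · rw [if_neg (by simpa using hk), if_neg hk, ENNReal.ofReal_zero]
      · intro k _
        have := sc_pos h k
        split_ifs <;> positivity
    rw [h2]
    refine (ENNReal.ofReal_le_ofReal h1).trans ?_
    rw [ENNReal.ofReal_mul (by norm_num), ENNReal.ofReal_inv_of_pos (by positivity),
      ENNReal.ofReal_pow hy'.le, ofReal_norm]
    simp

theorem ofReal_integral_pow {a : (Fin d → ℝ) → Fin d → ℝ} (ha : Continuous a) (ρ : ℝ)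
    (v : Fin d → ℝ) (p : ℕ) :
    ENNReal.ofReal (∫ y in Metric.closedBall (0 : Fin d → ℝ) ρ, ‖a (v - y) - a v‖ ^ p) =
      ∫⁻ y in Metric.closedBall (0 : Fin d → ℝ) ρ, ‖a (v - y) - a v‖ₑ ^ p := by
  have hdn : Continuous (fun y => ‖a (v - y) - a v‖) := by fun_prop
  rw [ofReal_integral_eq_lintegral_ofReal]
  · congr 1
    funext y
    rw [ENNReal.ofReal_pow (norm_nonneg _), ofReal_norm]
  · exact (hdn.pow p).continuousOn.integrableOn_compact (isCompact_closedBall _ _)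
  · exact Filter.Eventually.of_forall fun _ => by positivity

theorem pieceA {a : (Fin d → ℝ) → Fin d → ℝ} (ha : Continuous a) (hd : 0 < d) {ρ : ℝ} (hρ : 0 < ρ)
    (v : Fin d → ℝ) :
    ENNReal.ofReal ((ρ ^ (d - 1))⁻¹ * (osc a ρ v ^ d + ρ ^ d)) ≤
      ENNReal.ofReal (2 ^ (d * d)) * (ENNReal.ofReal ((ρ ^ (2 * d - 1))⁻¹) *
        ∫⁻ y in Metric.closedBall (0 : Fin d → ℝ) ρ, ‖a (v - y) - a v‖ₑ ^ d) +
        ENNReal.ofReal ρ := by
  have h1 := osc_pow_le ha hρ v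
  set I := ∫ y in Metric.closedBall (0 : Fin d → ℝ) ρ, ‖a (v - y) - a v‖ ^ d with hI
  have hI0 : 0 ≤ I := integral_nonneg fun _ => by positivity
  rw [← ofReal_integral_pow ha ρ v d, ← ENNReal.ofReal_mul (by positivity),
    ← ENNReal.ofReal_mul (by positivity), ← ENNReal.ofReal_add (by positivity) hρ.le]
  apply ENNReal.ofReal_le_ofReal
  have h2 : (ρ ^ (2 * d - 1))⁻¹ = (ρ ^ (d - 1))⁻¹ * (ρ ^ d)⁻¹ := by
    rw [← mul_inv, ← pow_add]
    congr 2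
    omega
  have h3 : (ρ ^ (d - 1))⁻¹ * ρ ^ d = ρ := by
    have : ρ ^ d = ρ ^ (d - 1) * ρ := by
      rw [← pow_succ]; congr 1; omega
    rw [this]
    field_simp
  calc (ρ ^ (d - 1))⁻¹ * (osc a ρ v ^ d + ρ ^ d)
      ≤ (ρ ^ (d - 1))⁻¹ * (2 ^ (d * d) * ((ρ ^ d)⁻¹ * I) + ρ ^ d) := by gcongr
    _ = 2 ^ (d * d) * ((ρ ^ (d - 1))⁻¹ * (ρ ^ d)⁻¹ * I) + (ρ ^ (d - 1))⁻¹ * ρ ^ d := by ring
    _ = 2 ^ (d * d) * ((ρ ^ (2 * d - 1))⁻¹ * I) + ρ := by rw [h2, h3]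

theorem measurable_h {a : (Fin d → ℝ) → Fin d → ℝ} (ha : Continuous a) (p : ℕ) :
    Measurable (fun q : (Fin d → ℝ) × (Fin d → ℝ) => ‖a (q.1 - q.2) - a q.1‖ₑ ^ p) := by
  have : Continuous (fun q : (Fin d → ℝ) × (Fin d → ℝ) => a (q.1 - q.2) - a q.1) := by fun_prop
  exact this.measurable.enorm.pow_const p

open scoped Classical in
/-- Summation over the dyadic scales. -/
theorem pieceC {a : (Fin d → ℝ) → Fin d → ℝ} (ha : Continuous a) {m : ℕ} (hm : 0 < m) {ρ0 : ℝ}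
    (hρ : 0 < ρ0) (p : ℕ) (S : Set (Fin d → ℝ)) :
    ∑' k, ∫⁻ v in S, ENNReal.ofReal ((sc ρ0 k ^ m)⁻¹) *
        ∫⁻ y in Metric.closedBall (0 : Fin d → ℝ) (sc ρ0 k), ‖a (v - y) - a v‖ₑ ^ p ≤
      ∫⁻ v in S, ∫⁻ y in Metric.closedBall (0 : Fin d → ℝ) ρ0,
        2 * (‖y‖ₑ ^ m)⁻¹ * ‖a (v - y) - a v‖ₑ ^ p := by
  have hmeas := measurable_h ha p
  have h1 : ∀ k v, ENNReal.ofReal ((sc ρ0 k ^ m)⁻¹) *
        ∫⁻ y in Metric.closedBall (0 : Fin d → ℝ) (sc ρ0 k), ‖a (v - y) - a v‖ₑ ^ p =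
      ∫⁻ y in Metric.closedBall (0 : Fin d → ℝ) ρ0,
        (if y ∈ Metric.closedBall (0 : Fin d → ℝ) (sc ρ0 k) then
          ENNReal.ofReal ((sc ρ0 k ^ m)⁻¹) else 0) * ‖a (v - y) - a v‖ₑ ^ p := by
    intro k v
    rw [← lintegral_const_mul' _ _ ENNReal.ofReal_ne_top]
    have hsub : Metric.closedBall (0 : Fin d → ℝ) (sc ρ0 k) ⊆ Metric.closedBall 0 ρ0 := by
      apply Metric.closedBall_subset_closedBall
      have := sc_anti hρ (Nat.zero_le k)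
      simpa [sc] using this
    rw [← lintegral_indicator Metric.isClosed_closedBall.measurableSet,
      ← lintegral_indicator Metric.isClosed_closedBall.measurableSet]
    congr 1
    funext y
    by_cases hy : y ∈ Metric.closedBall (0 : Fin d → ℝ) (sc ρ0 k)
    · rw [Set.indicator_of_mem hy, Set.indicator_of_mem (hsub hy), if_pos hy]
    · rw [Set.indicator_of_notMem hy]
      by_cases hy2 : y ∈ Metric.closedBall (0 : Fin d → ℝ) ρ0
      · rw [Set.indicator_of_mem hy2, if_neg hy, zero_mul]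
      · rw [Set.indicator_of_notMem hy2]
  have hmk : ∀ k, Measurable (fun q : (Fin d → ℝ) × (Fin d → ℝ) =>
      (if q.2 ∈ Metric.closedBall (0 : Fin d → ℝ) (sc ρ0 k) then
          ENNReal.ofReal ((sc ρ0 k ^ m)⁻¹) else 0) * ‖a (q.1 - q.2) - a q.1‖ₑ ^ p) := by
    intro k
    refine Measurable.mul ?_ hmeas
    apply Measurable.ite _ measurable_const measurable_const
    exact measurable_snd Metric.isClosed_closedBall.measurableSet
  simp_rw [h1]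
  rw [← lintegral_tsum]
  · refine lintegral_mono fun v => ?_
    rw [← lintegral_tsum]
    · refine lintegral_mono fun y => ?_
      rw [ENNReal.tsum_mul_right]
      gcongr
      exact tsum_ind_le hρ hm y
    · intro k
      exact ((hmk k).comp (measurable_const.prodMk measurable_id)).aemeasurable
  · intro k
    exact (Measurable.lintegral_prod_right' (hmk k)).aemeasurable

/-- Passing to the Gagliardo double integral. -/
theorem pieceD {a : (Fin d → ℝ) → Fin d → ℝ} (m : ℕ) {ρ0 : ℝ} (p : ℕ) {S Q : Set (Fin d → ℝ)}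
    (hS : MeasurableSet S) (hQ : MeasurableSet Q)
    (hSQ : ∀ v ∈ S, ∀ w, ‖v - w‖ ≤ ρ0 → w ∈ Q) :
    ∫⁻ v in S, ∫⁻ y in Metric.closedBall (0 : Fin d → ℝ) ρ0,
        2 * (‖y‖ₑ ^ m)⁻¹ * ‖a (v - y) - a v‖ₑ ^ p ≤
      2 * ∫⁻ v in S, ∫⁻ w in Q, ‖a v - a w‖ₑ ^ p / ‖v - w‖ₑ ^ m := by
  rw [← lintegral_const_mul' _ _ (by norm_num)]
  refine setLIntegral_mono' hS fun v hv => ?_
  rw [← lintegral_const_mul' _ _ (by norm_num),
    ← lintegral_indicator Metric.isClosed_closedBall.measurableSet,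
    ← lintegral_indicator hQ, ← lintegral_sub_left_eq_self _ v]
  refine lintegral_mono fun w => ?_
  by_cases hw : v - w ∈ Metric.closedBall (0 : Fin d → ℝ) ρ0
  · rw [Set.indicator_of_mem hw, Set.indicator_of_mem (hSQ v hv w (by simpa using hw))]
    rw [sub_sub_cancel, mul_assoc, div_eq_mul_inv, mul_comm (‖a v - a w‖ₑ ^ p),
      ← enorm_neg (a w - a v), neg_sub]
  · rw [Set.indicator_of_notMem hw]
    exact zero_le

end Pool.Agent.W769.Kak
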